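import Pool.Agent.N812.BB.De

/-!
# Perturbations `N + κ K`, where the resolvent of `N` is weakly locally integrable
-/

set_option autoImplicit false

namespace Pool.Agent.N812.BB

open MeasureTheory Set Metric Filter Topology
open Pool.Agent.R276.CP
open Pool.Agent.Y271.RO (Bd)
open Pool.Agent.N812.IS (nn nn_meas tl tl_meas tl_zero Xi Mu Zs Zl ball_sub sum_le_nn sum_le_tl coord_meas coord_le l2)
open scoped InnerProductSpace ENNReal NNReal

/-- the operators `R g = ∫ g(z) (z - N)⁻¹ dA`; `f i x z = φ i ((z - N)⁻¹ x)` -/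
structure Cal {E ι : Type} [NormedAddCommGroup E] [NormedSpace ℂ E] (ν : Measure ℂ)
    (N : E →L[ℂ] E) (R : (ℂ → ℂ) → (E →L[ℂ] E)) (φ : ι → (E →L[ℂ] ℂ)) (f : ι → E → ℂ → ℂ) : Prop where
  norming : ∀ (x : E) (B : ℝ), 0 ≤ B → (∀ i, ‖φ i x‖ ≤ B * ‖φ i‖) → ‖x‖ ≤ B
  step : ∀ (a c : ℂ) (r B : ℝ) (g : ℂ → ℂ) (x : E), Bd g c r B →
    N (R g x) - a • R g x = R (fun z => (z - a) * g z) x - (∫ z, g z ∂ν) • x
  bdd : ∀ r : ℝ, 0 < r → ∃ C : ℝ, 0 ≤ C ∧ ∀ (a : ℂ) (B : ℝ) (g : ℂ → ℂ), Bd g a r B → ‖R g‖ ≤ C * B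
  meas : ∀ i x, Measurable (f i x)
  rep : ∀ (i : ι) (x : E) (a : ℂ) (r B : ℝ) (g : ℂ → ℂ), Bd g a r B →
    Integrable (fun z => g z * f i x z) ν ∧ φ i (R g x) = ∫ z, g z * f i x z ∂ν

/-- the perturbation `K x = ∑ φ (v j) x • u j` -/
structure Pert {E ι : Type} [NormedAddCommGroup E] [NormedSpace ℂ E] (ν : Measure ℂ) (φ : ι → (E →L[ℂ] ℂ))
    (f : ι → E → ℂ → ℂ) (u : ℕ → E) (v : ℕ → ι) (K : E →L[ℂ] E) : Prop where
  sum : ∀ x, Tendsto (fun n => ∑ j ∈ Finset.range n, φ (v j) x • u j) atTop (𝓝 (K x))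
  b1 : ∀ᵐ z ∂ν, Xi (fun i j z => f (v i) (u j) z) z ≠ ⊤
  b3 : ∀ R : ℝ, ∃ C : ℝ, 0 ≤ C ∧ ∀ i : ι, ∫⁻ z in ball (0:ℂ) R, nn (fun j => f i (u j) z) ∂ν ≤
    ENNReal.ofReal (C * ‖φ i‖)
  b4 : ∀ R ε : ℝ, 0 < ε → ∃ n : ℕ, ∀ i : ι,
    ∫⁻ z in ball (0:ℂ) R, nn (tl n (fun j => f i (u j) z)) ∂ν ≤ ENNReal.ofReal (ε * ‖φ i‖)

section

variable {ν : Measure ℂ} [IsFiniteMeasure ν] {E ι : Type} [NormedAddCommGroup E] [NormedSpace ℂ E] {N : E →L[ℂ] E}
    {R : (ℂ → ℂ) → (E →L[ℂ] E)} {φ : ι → (E →L[ℂ] ℂ)} {f : ι → E → ℂ → ℂ} {u : ℕ → E} {v : ℕ → ι}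
    {K : E →L[ℂ] E} {c : ℂ → l2} {g : ℂ → ℂ} {a : ℂ} {r B : ℝ}

lemma sum_int (hC : Cal ν N R φ f) (hc : StronglyMeasurable c) (hg : Mu c g a r B) (i : ι)
    (s : Finset ℕ) : Integrable (fun z => g z * ∑ j ∈ s, (c z : ℕ → ℂ) j * f i (u j) z) ν ∧
      φ i (∑ j ∈ s, R (fun z => g z * (c z : ℕ → ℂ) j) (u j)) =
      ∫ z, g z * ∑ j ∈ s, (c z : ℕ → ℂ) j * f i (u j) z ∂ν := by
  have h1 : ∀ j, Integrable (fun z => g z * (c z : ℕ → ℂ) j * f i (u j) z) ν :=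
    fun j => (hC.rep i (u j) a r B _ (hg.coord hc j)).1
  have h2 : ∀ z, g z * ∑ j ∈ s, (c z : ℕ → ℂ) j * f i (u j) z =
      ∑ j ∈ s, g z * (c z : ℕ → ℂ) j * f i (u j) z := by
    intro z
    rw [Finset.mul_sum]
    exact Finset.sum_congr rfl fun j _ => by ring
  simp_rw [h2]
  refine ⟨integrable_finset_sum _ fun j _ => h1 j, ?_⟩
  rw [map_sum, integral_finset_sum _ fun j _ => h1 j]
  exact Finset.sum_congr rfl fun j _ => (hC.rep i (u j) a r B _ (hg.coord hc j)).2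

lemma block (hC : Cal ν N R φ f) (hc : StronglyMeasurable c)
    (hg : Mu c g a r B) (i : ι) {s : Finset ℕ} {n : ℕ} (hs : ∀ j ∈ s, n ≤ j) {D : ℝ} (hD : 0 ≤ D)
    (hn : ∫⁻ z in ball (0:ℂ) (‖a‖ + r), nn (tl n (fun j => f i (u j) z)) ∂ν ≤
      ENNReal.ofReal (D * ‖φ i‖)) :
    ‖φ i (∑ j ∈ s, R (fun z => g z * (c z : ℕ → ℂ) j) (u j))‖ ≤ D * B * ‖φ i‖ := by
  obtain ⟨h1, h2⟩ := sum_int (u := u) hC hc hg i s
  rw [h2]
  have hB := hg.nonneg
  have h3 : ENNReal.ofReal ‖∫ z, g z * ∑ j ∈ s, (c z : ℕ → ℂ) j * f i (u j) z ∂ν‖ ≤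
      ENNReal.ofReal (D * B * ‖φ i‖) := by
    calc ENNReal.ofReal ‖∫ z, g z * ∑ j ∈ s, (c z : ℕ → ℂ) j * f i (u j) z ∂ν‖
        ≤ ∫⁻ z, ENNReal.ofReal ‖g z * ∑ j ∈ s, (c z : ℕ → ℂ) j * f i (u j) z‖ ∂ν := by
          simp only [ofReal_norm_eq_enorm]
          exact enorm_integral_le_lintegral_enorm _
      _ ≤ ∫⁻ z in ball (0:ℂ) (‖a‖ + r), ENNReal.ofReal B * nn (tl n (fun j => f i (u j) z)) ∂ν := by
          rw [← lintegral_indicator measurableSet_ball]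
          refine lintegral_mono fun z => ?_
          by_cases hz : z ∈ ball (0:ℂ) (‖a‖ + r)
          · rw [indicator_of_mem hz, norm_mul, ENNReal.ofReal_mul (norm_nonneg _)]
            calc ENNReal.ofReal ‖g z‖ * ENNReal.ofReal ‖∑ j ∈ s, (c z : ℕ → ℂ) j * f i (u j) z‖
                ≤ ENNReal.ofReal ‖g z‖ *
                  (ENNReal.ofReal ‖c z‖ * nn (tl n (fun j => f i (u j) z))) :=
                  mul_le_mul' le_rfl (sum_le_tl (c z) _ hs)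
              _ = ENNReal.ofReal (‖g z‖ * ‖c z‖) * nn (tl n (fun j => f i (u j) z)) := by
                  rw [ENNReal.ofReal_mul (norm_nonneg _), mul_assoc]
              _ ≤ _ := mul_le_mul' (ENNReal.ofReal_le_ofReal (hg.bdc z)) le_rfl
          · rw [indicator_of_notMem hz, hg.supp z (fun h => hz (ball_sub a r h)), zero_mul,
              norm_zero, ENNReal.ofReal_zero]
      _ = ENNReal.ofReal B * ∫⁻ z in ball (0:ℂ) (‖a‖ + r), nn (tl n (fun j => f i (u j) z)) ∂ν := by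
          rw [lintegral_const_mul]
          exact nn_meas fun j => tl_meas (fun j => hC.meas i (u j)) n j
      _ ≤ ENNReal.ofReal B * ENNReal.ofReal (D * ‖φ i‖) := mul_le_mul' le_rfl hn
      _ = ENNReal.ofReal (D * B * ‖φ i‖) := by
          rw [← ENNReal.ofReal_mul hB]
          congr 1
          ring
  exact (ENNReal.ofReal_le_ofReal_iff (by positivity)).1 h3

lemma Zs_cauchy (hC : Cal ν N R φ f) (hP : Pert ν φ f u v K) (hc : StronglyMeasurable c)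
    (hg : Mu c g a r B) : CauchySeq (Zs R u c g) := by
  rw [Metric.cauchySeq_iff']
  intro ε hε
  have hB := hg.nonneg
  set δ : ℝ := ε / (2 * (B + 1)) with hδ
  have hδ0 : 0 < δ := by positivity
  obtain ⟨n, hn⟩ := hP.b4 (‖a‖ + r) δ hδ0
  refine ⟨n, fun m hm => ?_⟩
  rw [dist_eq_norm]
  have h1 : Zs R u c g m - Zs R u c g n =
      ∑ j ∈ Finset.Ico n m, R (fun z => g z * (c z : ℕ → ℂ) j) (u j) := by
    unfold Zs
    rw [Finset.sum_Ico_eq_sub _ hm]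
  rw [h1]
  have h2 := hC.norming (∑ j ∈ Finset.Ico n m, R (fun z => g z * (c z : ℕ → ℂ) j) (u j)) (δ * B)
    (by positivity) fun i => block hC hc hg i (fun j hj => (Finset.mem_Ico.1 hj).1) hδ0.le (hn i)
  refine h2.trans_lt ?_
  rw [hδ, div_mul_eq_mul_div, div_lt_iff₀ (by positivity)]
  nlinarith

variable [CompleteSpace E]

lemma Zl_tendsto (hC : Cal ν N R φ f) (hP : Pert ν φ f u v K) (hc : StronglyMeasurable c)
    (hg : Mu c g a r B) : Tendsto (Zs R u c g) atTop (𝓝 (Zl R u c g)) :=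
  tendsto_nhds_limUnder (cauchySeq_tendsto_of_complete (Zs_cauchy hC hP hc hg))

omit [CompleteSpace E] in
lemma Zl_bound (hC : Cal ν N R φ f) (hP : Pert ν φ f u v K) (hc : StronglyMeasurable c) (a : ℂ) (r : ℝ) :
    ∃ C : ℝ, 0 ≤ C ∧ ∀ (g : ℂ → ℂ) (B : ℝ), Mu c g a r B → ∀ n, ‖Zs R u c g n‖ ≤ C * B := by
  obtain ⟨C, hC0, h⟩ := hP.b3 (‖a‖ + r)
  refine ⟨C, hC0, fun g B hg n => ?_⟩
  refine hC.norming _ _ (mul_nonneg hC0 hg.nonneg) fun i => ?_
  refine block hC hc hg i (n := 0) (fun j _ => Nat.zero_le j) hC0 ?_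
  simp only [tl_zero]
  exact h i

/-- the value of the functionals -/
lemma Zl_val (hC : Cal ν N R φ f) (hP : Pert ν φ f u v K) (hc : StronglyMeasurable c)
    (hg : Mu c g a r B) (i : ι) {s : ℂ → ℂ}
    (hs : ∀ᵐ z ∂ν, HasSum (fun j => f i (u j) z * (c z : ℕ → ℂ) j) (s z)) :
    Integrable (fun z => g z * s z) ν ∧ φ i (Zl R u c g) = ∫ z, g z * s z ∂ν := by
  have h1 := ((φ i).continuous.tendsto _).comp (Zl_tendsto hC hP hc hg)
  obtain ⟨C, hC0, hb3⟩ := hP.b3 (‖a‖ + r)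
  set G : ℂ → ℝ≥0∞ := (ball (0:ℂ) (‖a‖ + r)).indicator fun z =>
    ENNReal.ofReal B * nn (fun j => f i (u j) z) with hG
  have hGm : Measurable G :=
    ((nn_meas fun j => hC.meas i (u j)).const_mul _).indicator measurableSet_ball
  have hGi : ∫⁻ z, G z ∂ν ≠ ⊤ := by
    rw [hG, lintegral_indicator measurableSet_ball, lintegral_const_mul _
      (nn_meas fun j => hC.meas i (u j))]
    exact (ENNReal.mul_lt_top ENNReal.ofReal_lt_top
      ((hb3 i).trans_lt ENNReal.ofReal_lt_top)).ne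
  have hGa : ∀ᵐ z ∂ν, G z < ⊤ := ae_lt_top hGm hGi
  have hGint : Integrable (fun z => (G z).toReal) ν := integrable_toReal_of_lintegral_ne_top
    hGm.aemeasurable hGi
  have hbound : ∀ n : ℕ, ∀ᵐ z ∂ν, ‖g z * ∑ j ∈ Finset.range n, (c z : ℕ → ℂ) j * f i (u j) z‖ ≤
      (G z).toReal := by
    intro n
    filter_upwards [hGa] with z hz
    rw [← ENNReal.ofReal_le_iff_le_toReal hz.ne]
    simp only [hG]
    by_cases hzb : z ∈ ball (0:ℂ) (‖a‖ + r)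
    · rw [indicator_of_mem hzb, norm_mul, ENNReal.ofReal_mul (norm_nonneg _)]
      calc ENNReal.ofReal ‖g z‖ * ENNReal.ofReal ‖∑ j ∈ Finset.range n, (c z : ℕ → ℂ) j * f i (u j) z‖
          ≤ ENNReal.ofReal ‖g z‖ * (ENNReal.ofReal ‖c z‖ * nn (fun j => f i (u j) z)) :=
            mul_le_mul' le_rfl (sum_le_nn (c z) _ _)
        _ = ENNReal.ofReal (‖g z‖ * ‖c z‖) * nn (fun j => f i (u j) z) := by
            rw [ENNReal.ofReal_mul (norm_nonneg _), mul_assoc]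
        _ ≤ _ := mul_le_mul' (ENNReal.ofReal_le_ofReal (hg.bdc z)) le_rfl
    · rw [indicator_of_notMem hzb, hg.supp z (fun h => hzb (ball_sub a r h)), zero_mul,
        norm_zero, ENNReal.ofReal_zero]
  have hlim : ∀ᵐ z ∂ν, Tendsto (fun n => g z * ∑ j ∈ Finset.range n, (c z : ℕ → ℂ) j * f i (u j) z)
      atTop (𝓝 (g z * s z)) := by
    filter_upwards [hs] with z hz
    have h2 := hz.tendsto_sum_nat.const_mul (g z)
    refine h2.congr fun n => ?_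
    congr 1
    exact Finset.sum_congr rfl fun j _ => mul_comm _ _
  have hmeas : ∀ n : ℕ, AEStronglyMeasurable
      (fun z => g z * ∑ j ∈ Finset.range n, (c z : ℕ → ℂ) j * f i (u j) z) ν :=
    fun n => (sum_int (u := u) hC hc hg i (Finset.range n)).1.aestronglyMeasurable
  have h3 := tendsto_integral_of_dominated_convergence _ hmeas hGint hbound hlim
  have h4 : (fun n => ∫ z, g z * ∑ j ∈ Finset.range n, (c z : ℕ → ℂ) j * f i (u j) z ∂ν) =
      (φ i) ∘ (Zs R u c g) := by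
    funext n
    exact (sum_int (u := u) hC hc hg i (Finset.range n)).2.symm
  rw [h4] at h3
  refine ⟨?_, tendsto_nhds_unique h1 h3⟩
  refine hGint.mono' (aestronglyMeasurable_of_tendsto_ae atTop hmeas hlim) ?_
  filter_upwards [hlim, ae_all_iff.2 hbound] with z hz1 hz2
  exact le_of_tendsto' hz1.norm hz2

end

end Pool.Agent.N812.BB
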