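import Pool.Agent.N812.BB.Su
import Pool.Agent.N812.WO.Ker
import Pool.Agent.N812.IS.Kr

/-!
# The operators `∫ g(z) (z - N)⁻¹ dν` from a functional calculus
-/

set_option autoImplicit false

namespace Pool.Agent.N812.BB

open MeasureTheory Set Metric Filter Topology
open Pool.Agent.N812.IS (rl rl_pos rl_eq kr_cont kr_norm th th_zero th_norm th_eq mx_pos)
open Pool.Agent.N812.WO (ka ka_meas ka_le pot_one)
open Pool.Agent.R277.SP (FC cK zz)
open Pool.Agent.Y271.RO (Bd)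
open scoped InnerProductSpace ENNReal NNReal ComplexConjugate

variable {ν : Measure ℂ} {S : Set ℂ}

/-- the Cauchy transform of `g ν` -/
noncomputable def hw (ν : Measure ℂ) (g : ℂ → ℂ) (s : ℂ) : ℂ := ∫ z, g z * (z - s)⁻¹ ∂ν

open Classical in
/-- the Cauchy transform as an element of `C(S)` -/
noncomputable def hc (ν : Measure ℂ) (S : Set ℂ) (g : ℂ → ℂ) : C(S, ℂ) :=
  if h : Continuous fun s : S => hw ν g s then ⟨fun s => hw ν g s, h⟩ else 0

/-- bounded potentials -/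
def Pb (ν : Measure ℂ) (S : Set ℂ) (τ : ℝ) (D : ℝ≥0) : Prop :=
  ∀ w ∈ S, ∫⁻ z, ‖z - w‖ₑ ^ (-τ) ∂ν ≤ D

section

variable [IsFiniteMeasure ν] {τ : ℝ} {D : ℝ≥0}

lemma Pb.one (hP : Pb ν S τ D) (hτ : 1 ≤ τ) {s : ℂ} (hs : s ∈ S) :
    ∫⁻ z, ‖z - s‖ₑ⁻¹ ∂ν ≤ ((ν univ).toNNReal + D : ℝ≥0) := by
  calc ∫⁻ z, ‖z - s‖ₑ⁻¹ ∂ν ≤ ∫⁻ z, (1 + ‖z - s‖ₑ ^ (-τ)) ∂ν :=
        lintegral_mono fun z => pot_one hτ _
    _ = ν univ + ∫⁻ z, ‖z - s‖ₑ ^ (-τ) ∂ν := by
        rw [lintegral_add_left measurable_const, lintegral_one]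
    _ ≤ _ := by
        rw [ENNReal.coe_add, ENNReal.coe_toNNReal (measure_ne_top ν univ)]
        exact add_le_add le_rfl (hP s hs)

omit [IsFiniteMeasure ν] in
lemma Pb.ne (hP : Pb ν S τ D) (hτ : 0 < τ) {s : ℂ} (hs : s ∈ S) : ∀ᵐ z ∂ν, z ≠ s := by
  have hm : Measurable fun z : ℂ => ‖z - s‖ₑ ^ (-τ) := by fun_prop
  have h1 : ∀ᵐ z ∂ν, ‖z - s‖ₑ ^ (-τ) < ⊤ :=
    ae_lt_top hm (ne_top_of_le_ne_top ENNReal.coe_ne_top (hP s hs))
  filter_upwards [h1] with z hz h2
  rw [h2, sub_self, enorm_zero, ENNReal.zero_rpow_of_neg (by linarith)] at hz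
  exact lt_irrefl _ hz

lemma Pb.int (hP : Pb ν S τ D) (hτ : 1 ≤ τ) {s : ℂ} (hs : s ∈ S) {g : ℂ → ℂ} {a : ℂ} {r B : ℝ}
    (hg : Bd g a r B) : Integrable (fun z => g z * (z - s)⁻¹) ν := by
  refine ⟨(hg.meas.mul (measurable_id.sub_const s).inv).aestronglyMeasurable, ?_⟩
  have h1 : ∀ z, ‖g z * (z - s)⁻¹‖ₑ ≤ ENNReal.ofReal B * ‖z - s‖ₑ⁻¹ := by
    intro z
    rw [enorm_mul, ← ofReal_norm (g z)]
    refine mul_le_mul' (ENNReal.ofReal_le_ofReal (hg.bd z)) ?_
    exact Pool.Agent.N812.WO.inv_le_inv _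
  refine lt_of_le_of_lt (lintegral_mono h1) ?_
  rw [lintegral_const_mul' _ _ ENNReal.ofReal_ne_top]
  exact ENNReal.mul_lt_top ENNReal.ofReal_lt_top
    ((hP.one hτ hs).trans_lt ENNReal.coe_lt_top)

lemma kr_close (l : ℕ) (ζ : ℂ) : ‖ζ⁻¹ - Pool.Agent.N812.IS.kr l ζ‖ₑ ≤ ‖ka (rl l) ζ‖ₑ := by
  by_cases h0 : ζ = 0
  · rw [h0]
    simp [Pool.Agent.N812.IS.kr]
  · rw [th_eq l h0]
    unfold ka
    by_cases hz : ζ ∈ ball (0:ℂ) (rl l)
    · rw [indicator_of_mem hz, enorm_mul]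
      refine mul_le_of_le_one_left (by positivity) ?_
      rw [← ofReal_norm, ← ENNReal.ofReal_one]
      exact ENNReal.ofReal_le_ofReal (th_norm l ζ)
    · rw [mem_ball_zero_iff, not_lt] at hz
      rw [th_zero l hz, zero_mul, enorm_zero]
      exact bot_le

lemma Pb.cont (hP : Pb ν S τ D) (hτ : 1 < τ) {g : ℂ → ℂ} {a : ℂ} {r B : ℝ} (hg : Bd g a r B) :
    Continuous fun s : S => hw ν g s := by
  set H : ℕ → S → ℂ := fun l s => ∫ z, g z * Pool.Agent.N812.IS.kr l (z - s) ∂ν with hH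
  have hHc : ∀ l, Continuous (H l) := by
    intro l
    refine continuous_of_dominated (bound := fun _ => B * (rl l)⁻¹) (fun s => ?_) (fun s => ?_)
      (integrable_const _) (Eventually.of_forall fun z => ?_)
    · exact (hg.meas.mul ((kr_cont l).measurable.comp
        (measurable_id.sub_const (s : ℂ)))).aestronglyMeasurable
    · refine Eventually.of_forall fun z => ?_
      rw [norm_mul]
      refine mul_le_mul (hg.bd z) ((kr_norm l _).trans ?_) (norm_nonneg _) hg.nonneg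
      exact inv_anti₀ (rl_pos l) (le_max_right _ _)
    · exact continuous_const.mul ((kr_cont l).comp (continuous_const.sub continuous_subtype_val))
  have hint : ∀ (l : ℕ) (s : S), Integrable (fun z => g z * Pool.Agent.N812.IS.kr l (z - s)) ν := by
    intro l s
    refine Integrable.of_bound (hg.meas.mul ((kr_cont l).measurable.comp
        (measurable_id.sub_const (s : ℂ)))).aestronglyMeasurable (B * (rl l)⁻¹)
      (Eventually.of_forall fun z => ?_)
    rw [norm_mul]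
    refine mul_le_mul (hg.bd z) ((kr_norm l _).trans ?_) (norm_nonneg _) hg.nonneg
    exact inv_anti₀ (rl_pos l) (le_max_right _ _)
  have hclose : ∀ (l : ℕ) (s : S), ‖hw ν g s - H l s‖ ≤ B * ((rl l) ^ (τ - 1) * D) := by
    intro l s
    have e : hw ν g s - H l s = ∫ z, g z * ((z - s)⁻¹ - Pool.Agent.N812.IS.kr l (z - s)) ∂ν := by
      rw [hw, hH]
      simp only
      rw [← integral_sub (hP.int hτ.le s.2 hg) (hint l s)]
      refine integral_congr_ae (Eventually.of_forall fun z => ?_)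
      simp only
      ring
    rw [e]
    have h1 : ‖∫ z, g z * ((z - s)⁻¹ - Pool.Agent.N812.IS.kr l (z - s)) ∂ν‖ₑ ≤
        ENNReal.ofReal (B * ((rl l) ^ (τ - 1) * D)) := by
      calc ‖∫ z, g z * ((z - s)⁻¹ - Pool.Agent.N812.IS.kr l (z - s)) ∂ν‖ₑ
          ≤ ∫⁻ z, ‖g z * ((z - s)⁻¹ - Pool.Agent.N812.IS.kr l (z - s))‖ₑ ∂ν :=
            enorm_integral_le_lintegral_enorm _
        _ ≤ ∫⁻ z, ENNReal.ofReal B * (ENNReal.ofReal ((rl l) ^ (τ - 1)) * ‖z - s‖ₑ ^ (-τ)) ∂ν := by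
            refine lintegral_mono fun z => ?_
            simp only
            rw [enorm_mul, ← ofReal_norm (g z)]
            exact mul_le_mul' (ENNReal.ofReal_le_ofReal (hg.bd z))
              ((kr_close l _).trans (ka_le hτ.le _))
        _ = ENNReal.ofReal B * (ENNReal.ofReal ((rl l) ^ (τ - 1)) * ∫⁻ z, ‖z - s‖ₑ ^ (-τ) ∂ν) := by
            rw [lintegral_const_mul' _ _ ENNReal.ofReal_ne_top,
              lintegral_const_mul' _ _ ENNReal.ofReal_ne_top]
        _ ≤ ENNReal.ofReal B * (ENNReal.ofReal ((rl l) ^ (τ - 1)) * D) :=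
            mul_le_mul' le_rfl (mul_le_mul' le_rfl (hP s s.2))
        _ = _ := by
            have := rl_pos l
            rw [← ENNReal.ofReal_coe_nnreal, ← ENNReal.ofReal_mul (by positivity),
              ← ENNReal.ofReal_mul hg.nonneg]
    have h2 : 0 ≤ B * ((rl l) ^ (τ - 1) * D) := by
      have := rl_pos l
      have := hg.nonneg
      positivity
    rw [← ofReal_norm] at h1
    exact (ENNReal.ofReal_le_ofReal_iff h2).1 h1
  have hlim : Tendsto (fun l : ℕ => B * ((rl l) ^ (τ - 1) * D)) atTop (𝓝 0) := by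
    have h1 : Tendsto (fun l : ℕ => rl l) atTop (𝓝 0) := by
      unfold rl
      exact tendsto_pow_atTop_nhds_zero_of_lt_one (by norm_num) (by norm_num)
    have h2 : Tendsto (fun l : ℕ => (rl l) ^ (τ - 1)) atTop (𝓝 0) := by
      have := h1.rpow_const (p := τ - 1) (Or.inr (by linarith))
      rwa [Real.zero_rpow (by linarith)] at this
    have h3 := (h2.mul_const (D : ℝ)).const_mul B
    simpa using h3
  have hU : TendstoUniformly H (fun s : S => hw ν g s) atTop := by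
    rw [Metric.tendstoUniformly_iff]
    intro ε hε
    filter_upwards [hlim.eventually_lt_const hε] with l hl s
    rw [dist_eq_norm]
    exact (hclose l s).trans_lt hl
  exact hU.continuous (Eventually.of_forall hHc).frequently

lemma Pb.hc_apply (hP : Pb ν S τ D) (hτ : 1 < τ) {g : ℂ → ℂ} {a : ℂ} {r B : ℝ} (hg : Bd g a r B)
    (s : S) : hc ν S g s = hw ν g s := by
  unfold hc
  rw [dif_pos (hP.cont hτ hg)]
  rfl

/-- Hoelder -/
lemma Pb.holder (hP : Pb ν S τ D) {q : ℝ} (hq : q.HolderConjugate τ) {g : ℂ → ℂ} {a : ℂ} {r B : ℝ}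
    (hg : Bd g a r B) {s : ℂ} (hs : s ∈ S) :
    ‖hw ν g s‖ ≤ (D : ℝ) ^ (1 / τ) * (eLpNorm g (ENNReal.ofReal q) ν).toReal := by
  have hq0 : 0 < q := hq.pos
  have hτ0 : 0 < τ := hq.symm.pos
  have hgL : MemLp g (ENNReal.ofReal q) ν :=
    MemLp.of_bound hg.meas.aestronglyMeasurable B (Eventually.of_forall hg.bd)
  have hne : eLpNorm g (ENNReal.ofReal q) ν ≠ ⊤ := hgL.2.ne
  have h1 : ‖hw ν g s‖ₑ ≤ eLpNorm g (ENNReal.ofReal q) ν * (D : ℝ≥0∞) ^ (1 / τ) := by
    calc ‖hw ν g s‖ₑ ≤ ∫⁻ z, ‖g z * (z - s)⁻¹‖ₑ ∂ν := enorm_integral_le_lintegral_enorm _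
      _ ≤ ∫⁻ z, ((fun z => ‖g z‖ₑ) * fun z => ‖z - s‖ₑ⁻¹) z ∂ν := by
          refine lintegral_mono fun z => ?_
          simp only [Pi.mul_apply]
          rw [enorm_mul]
          exact mul_le_mul' le_rfl (Pool.Agent.N812.WO.inv_le_inv _)
      _ ≤ (∫⁻ z, ‖g z‖ₑ ^ q ∂ν) ^ (1 / q) * (∫⁻ z, (‖z - s‖ₑ⁻¹) ^ τ ∂ν) ^ (1 / τ) :=
          ENNReal.lintegral_mul_le_Lp_mul_Lq ν hq hg.meas.enorm.aemeasurable (by fun_prop)
      _ ≤ eLpNorm g (ENNReal.ofReal q) ν * (D : ℝ≥0∞) ^ (1 / τ) := by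
          refine mul_le_mul' (le_of_eq ?_) ?_
          · rw [eLpNorm_eq_lintegral_rpow_enorm_toReal (by
              rw [Ne, ENNReal.ofReal_eq_zero, not_le]; exact hq0) ENNReal.ofReal_ne_top,
              ENNReal.toReal_ofReal hq0.le]
          · refine ENNReal.rpow_le_rpow ?_ (by positivity)
            refine le_trans (le_of_eq ?_) (hP s hs)
            refine lintegral_congr fun z => ?_
            rw [ENNReal.inv_rpow, ENNReal.rpow_neg]
  rw [← ofReal_norm] at h1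
  have h2 : eLpNorm g (ENNReal.ofReal q) ν * (D : ℝ≥0∞) ^ (1 / τ) =
      ENNReal.ofReal ((D : ℝ) ^ (1 / τ) * (eLpNorm g (ENNReal.ofReal q) ν).toReal) := by
    have h3 : ENNReal.ofReal ((D : ℝ) ^ (1 / τ)) = (D : ℝ≥0∞) ^ (1 / τ) := by
      rw [← ENNReal.ofReal_rpow_of_nonneg (NNReal.coe_nonneg D) (by positivity),
        ENNReal.ofReal_coe_nnreal]
    rw [ENNReal.ofReal_mul (by positivity), ENNReal.ofReal_toReal hne, mul_comm, h3]
  rw [h2] at h1
  exact (ENNReal.ofReal_le_ofReal_iff (by positivity)).1 h1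

end

section

variable {X : Type} [NormedAddCommGroup X] [NormedSpace ℂ X] [CompactSpace S]
  {Φ : C(S, ℂ) →ₐ[ℂ] (X →L[ℂ] X)} {N : X →L[ℂ] X} {M : ℝ} [IsFiniteMeasure ν] {τ q : ℝ} {D : ℝ≥0}

lemma bd_mulz {g : ℂ → ℂ} {c : ℂ} {r B : ℝ} (hg : Bd g c r B) (a : ℂ) :
    Bd (fun z => (z - a) * g z) c r ((|r| + ‖c - a‖) * B) := by
  refine ⟨(measurable_id.sub_const a).mul hg.meas, mul_nonneg (by positivity) hg.nonneg,
    fun z => ?_, fun z hz => by rw [hg.supp z hz, mul_zero]⟩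
  by_cases hz : z ∈ ball c r
  · rw [norm_mul]
    rw [mem_ball, dist_eq_norm] at hz
    refine mul_le_mul ?_ (hg.bd z) (norm_nonneg _) (by positivity)
    calc ‖z - a‖ = ‖(z - c) + (c - a)‖ := by congr 1; ring
      _ ≤ ‖z - c‖ + ‖c - a‖ := norm_add_le _ _
      _ ≤ _ := add_le_add (hz.le.trans (le_abs_self r)) le_rfl
  · rw [hg.supp z hz, mul_zero, norm_zero]
    exact mul_nonneg (by positivity) hg.nonneg

/-- **The resolvent of an operator with a functional calculus** -/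
theorem sr_of (hF : FC Φ N M) (hq : q.HolderConjugate τ) (hP : Pb ν S τ D) :
    Sr ν q (M * (D : ℝ) ^ (1 / τ)) N fun g => Φ (hc ν S g) := by
  have hτ : 1 < τ := hq.symm.lt
  refine ⟨⟨mul_nonneg hF.nonneg (by positivity), fun g g' a r B B' hg hg' => ?_,
    fun c g a r B hg => ?_, fun g a r B hg => ?_⟩, fun a r B g _ => hF.comm _,
    fun a c r B g x hg => ?_⟩
  · rw [← map_add]
    congr 1
    have hs : Bd (fun z => g z + g' z) a r (B + B') :=
      ⟨hg.meas.add hg'.meas, add_nonneg hg.nonneg hg'.nonneg,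
        fun z => (norm_add_le _ _).trans (add_le_add (hg.bd z) (hg'.bd z)),
        fun z hz => by rw [hg.supp z hz, hg'.supp z hz, add_zero]⟩
    ext s
    rw [ContinuousMap.add_apply, hP.hc_apply hτ hs, hP.hc_apply hτ hg, hP.hc_apply hτ hg', hw, hw,
      hw, ← integral_add (hP.int hτ.le s.2 hg) (hP.int hτ.le s.2 hg')]
    refine integral_congr_ae (Eventually.of_forall fun z => ?_)
    simp only
    ring
  · rw [← map_smul]
    congr 1
    have hs : Bd (fun z => c * g z) a r (‖c‖ * B) :=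
      ⟨hg.meas.const_mul c, mul_nonneg (norm_nonneg _) hg.nonneg, fun z => by
        rw [norm_mul]
        exact mul_le_mul_of_nonneg_left (hg.bd z) (norm_nonneg _), fun z hz => by
          rw [hg.supp z hz, mul_zero]⟩
    ext s
    rw [ContinuousMap.smul_apply, hP.hc_apply hτ hs, hP.hc_apply hτ hg, hw, hw, smul_eq_mul,
      ← integral_const_mul]
    refine integral_congr_ae (Eventually.of_forall fun z => ?_)
    simp only
    ring
  · refine (hF.bd _).trans ?_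
    rw [mul_assoc]
    refine mul_le_mul_of_nonneg_left ?_ hF.nonneg
    refine (ContinuousMap.norm_le _ (by positivity)).2 fun s => ?_
    rw [hP.hc_apply hτ hg]
    exact hP.holder hq hg s.2
  · have hb' := bd_mulz hg a
    refine hF.step (h := hc ν S g) (h' := hc ν S (fun z => (z - a) * g z)) (a := a)
      (c := ∫ z, g z ∂ν) (fun s => ?_) x
    rw [hP.hc_apply hτ hg, hP.hc_apply hτ hb', hw, hw, ← integral_const_mul]
    have hgi : Integrable g ν := Integrable.of_bound hg.meas.aestronglyMeasurable B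
      (Eventually.of_forall hg.bd)
    rw [← integral_sub (hP.int hτ.le s.2 hb') hgi]
    refine integral_congr_ae ?_
    filter_upwards [hP.ne (by linarith) s.2] with z hz
    have h1 : z - s ≠ 0 := sub_ne_zero.2 hz
    field_simp
    ring

end

end Pool.Agent.N812.BB
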