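import Pool.Agent.N812.BB.Rn

/-!
# Maps with an `L^q` bound, the densities of the functionals
-/

set_option autoImplicit false

namespace Pool.Agent.N812.BB

open MeasureTheory Set Metric Filter Topology
open Pool.Agent.N812.IS (nn ind ball_sub)
open Pool.Agent.N812.BA (sum_pow)
open Pool.Agent.Y271.RO (Bd)
open scoped InnerProductSpace ENNReal NNReal ComplexConjugate

/-- linear maps on the bounded functions with an `L^q` bound -/
structure Lq {V : Type} [NormedAddCommGroup V] [NormedSpace ℂ V] (ν : Measure ℂ) (q C : ℝ)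
    (Λ : (ℂ → ℂ) → V) : Prop where
  nonneg : 0 ≤ C
  add : ∀ (g g' : ℂ → ℂ) (a : ℂ) (r B B' : ℝ), Bd g a r B → Bd g' a r B' →
    Λ (fun z => g z + g' z) = Λ g + Λ g'
  smul : ∀ (c : ℂ) (g : ℂ → ℂ) (a : ℂ) (r B : ℝ), Bd g a r B → Λ (fun z => c * g z) = c • Λ g
  bd : ∀ (g : ℂ → ℂ) (a : ℂ) (r B : ℝ), Bd g a r B →
    ‖Λ g‖ ≤ C * (eLpNorm g (ENNReal.ofReal q) ν).toReal

section

variable {V : Type} [NormedAddCommGroup V] [NormedSpace ℂ V] {ν : Measure ℂ} [IsFiniteMeasure ν]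
  {q C : ℝ} {Λ : (ℂ → ℂ) → V}

lemma eLp_bd {g : ℂ → ℂ} {B : ℝ} (hB : 0 ≤ B) (hq : 1 < q) (hb : ∀ z, ‖g z‖ ≤ B) {Q : Set ℂ}
    (hQ : MeasurableSet Q) (hs : ∀ z, z ∉ Q → g z = 0) :
    (eLpNorm g (ENNReal.ofReal q) ν).toReal ≤ B * (ν Q).toReal ^ (1 / q) := by
  have h1 : eLpNorm g (ENNReal.ofReal q) ν ≤
      eLpNorm (Q.indicator fun _ => B) (ENNReal.ofReal q) ν := by
    refine eLpNorm_mono fun z => ?_
    by_cases hz : z ∈ Q
    · rw [indicator_of_mem hz, Real.norm_of_nonneg hB]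
      exact hb z
    · rw [indicator_of_notMem hz, hs z hz, norm_zero, norm_zero]
  refine ENNReal.toReal_le_of_le_ofReal (by positivity) (h1.trans ?_)
  rw [eLpNorm_indicator_const hQ (by rw [Ne, ENNReal.ofReal_eq_zero, not_le]; linarith)
    ENNReal.ofReal_ne_top, ENNReal.toReal_ofReal (by linarith), ENNReal.ofReal_mul hB,
    ← ENNReal.ofReal_rpow_of_nonneg ENNReal.toReal_nonneg (by positivity),
    ENNReal.ofReal_toReal (measure_ne_top ν Q), ← ofReal_norm, Real.norm_of_nonneg hB]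

/-- the functionals are integrals -/
theorem Lq.fct (hΛ : Lq ν q C Λ) (hq : 1 < q) (φ : V →L[ℂ] ℂ) : Fct ν fun g => φ (Λ g) := by
  refine ⟨fun g g' r B B' hg hg' => ?_, fun c g r B hg => ?_, fun r => ?_⟩
  · rw [hΛ.add g g' 0 r B B' hg hg', map_add]
  · rw [hΛ.smul c g 0 r B hg, map_smul, smul_eq_mul]
  · refine ⟨‖φ‖ * C, 1 / q, mul_nonneg (norm_nonneg _) hΛ.nonneg, by positivity,
      fun Q hQ hQr g hg hs => ?_⟩
    refine (φ.le_opNorm _).trans ?_
    rw [mul_assoc]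
    refine mul_le_mul_of_nonneg_left ?_ (norm_nonneg _)
    refine (hΛ.bd g 0 r 1 hg).trans (mul_le_mul_of_nonneg_left ?_ hΛ.nonneg)
    have := eLp_bd (ν := ν) (q := q) zero_le_one hq hg.bd hQ hs
    rwa [one_mul] at this

/-- the density of a functional -/
noncomputable def den (hΛ : Lq ν q C Λ) (hq : 1 < q) (φ : V →L[ℂ] ℂ) : ℂ → ℂ :=
  (fct_rep (hΛ.fct hq φ)).choose

lemma den_meas (hΛ : Lq ν q C Λ) (hq : 1 < q) (φ : V →L[ℂ] ℂ) : Measurable (den hΛ hq φ) :=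
  (fct_rep (hΛ.fct hq φ)).choose_spec.1

lemma den_rep (hΛ : Lq ν q C Λ) (hq : 1 < q) (φ : V →L[ℂ] ℂ) (a : ℂ) (r B : ℝ) (g : ℂ → ℂ)
    (hg : Bd g a r B) : Integrable (fun z => g z * den hΛ hq φ z) ν ∧
      φ (Λ g) = ∫ z, g z * den hΛ hq φ z ∂ν :=
  (fct_rep (hΛ.fct hq φ)).choose_spec.2 a r B g hg

/-- the duality -/
theorem den_part (hΛ : Lq ν q C Λ) (hq : 1 < q) (φ : V →L[ℂ] ℂ) (n : ℕ) :
    ∫⁻ z in {z | ‖den hΛ hq φ z‖ ≤ n} ∩ ball 0 n,
      ENNReal.ofReal (‖den hΛ hq φ z‖ ^ (q / (q - 1))) ∂ν ≤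
      ENNReal.ofReal ((C * ‖φ‖) ^ (q / (q - 1))) := by
  set ρ : ℂ → ℂ := den hΛ hq φ with hρ
  have hρm : Measurable ρ := den_meas hΛ hq φ
  have hq0 : 0 < q - 1 := by linarith
  set s : ℝ := q / (q - 1) with hs
  have hs1 : 1 < s := by
    rw [hs, lt_div_iff₀ hq0]
    linarith
  have hsq : (s - 1) * q = s := by
    rw [hs]
    field_simp
    ring
  set P : Set ℂ := {z | ‖ρ z‖ ≤ n} ∩ ball 0 n with hP
  have hPm : MeasurableSet P := (measurableSet_le hρm.norm measurable_const).inter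
    measurableSet_ball
  have hPf : ν P ≠ ⊤ := measure_ne_top ν P
  set g : ℂ → ℂ := P.indicator fun z => conj (ρ z) * ((‖ρ z‖ ^ (s - 2) : ℝ) : ℂ) with hg
  have hgm : Measurable g := by
    refine Measurable.indicator ?_ hPm
    exact (Complex.continuous_conj.measurable.comp hρm).mul
      (Complex.measurable_ofReal.comp (hρm.norm.pow_const _))
  have hgn : ∀ z ∈ P, ‖g z‖ = ‖ρ z‖ ^ (s - 1) := by
    intro z hz
    rw [hg, indicator_of_mem hz, norm_mul, RCLike.norm_conj, Complex.norm_real,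
      Real.norm_of_nonneg (Real.rpow_nonneg (norm_nonneg _) _)]
    rcases (norm_nonneg (ρ z)).eq_or_lt with h0 | h0
    · rw [← h0, zero_mul, Real.zero_rpow (by linarith)]
    · rw [← Real.rpow_one_add' (norm_nonneg _) (by linarith)]
      congr 1
      ring
  have hg0 : ∀ z, z ∉ P → g z = 0 := fun z hz => indicator_of_notMem hz _
  have hgρ : ∀ z, g z * ρ z = ((P.indicator (fun z => ‖ρ z‖ ^ s) z : ℝ) : ℂ) := by
    intro z
    by_cases hz : z ∈ P
    · rw [hg, indicator_of_mem hz, indicator_of_mem hz]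
      have h1 : conj (ρ z) * ((‖ρ z‖ ^ (s - 2) : ℝ) : ℂ) * ρ z =
          ((‖ρ z‖ ^ 2 * ‖ρ z‖ ^ (s - 2) : ℝ) : ℂ) := by
        rw [mul_right_comm, Complex.conj_mul']
        push_cast
        rfl
      rw [h1]
      congr 1
      rcases (norm_nonneg (ρ z)).eq_or_lt with h0 | h0
      · rw [← h0, Real.zero_rpow (by linarith : s ≠ 0)]
        simp
      · rw [← Real.rpow_natCast, ← Real.rpow_add h0]
        congr 1
        push_cast
        ring
    · rw [hg0 z hz, indicator_of_notMem hz, zero_mul, Complex.ofReal_zero]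
  have hBd : Bd g 0 n ((n : ℝ) ^ (s - 1)) := by
    refine ⟨hgm, by positivity, fun z => ?_, fun z hz => hg0 z fun h => hz h.2⟩
    by_cases hz : z ∈ P
    · rw [hgn z hz]
      exact Real.rpow_le_rpow (norm_nonneg _) hz.1 (by linarith)
    · rw [hg0 z hz, norm_zero]
      positivity
  -- the integral
  have hI : IntegrableOn (fun z => ‖ρ z‖ ^ s) P ν := by
    refine Measure.integrableOn_of_bounded (M := (n : ℝ) ^ s) hPf
      (hρm.norm.pow_const _).aestronglyMeasurable ?_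
    refine (ae_restrict_iff' hPm).2 (Eventually.of_forall fun z hz => ?_)
    rw [Real.norm_of_nonneg (Real.rpow_nonneg (norm_nonneg _) _)]
    exact Real.rpow_le_rpow (norm_nonneg _) hz.1 (by linarith)
  set J : ℝ := ∫ z in P, ‖ρ z‖ ^ s ∂ν with hJ
  have hJ0 : 0 ≤ J := integral_nonneg fun z => Real.rpow_nonneg (norm_nonneg _) _
  have hv : φ (Λ g) = (J : ℂ) := by
    rw [(den_rep hΛ hq φ 0 n _ g hBd).2]
    simp_rw [← hρ, hgρ]
    have h1 : ∫ z, ((P.indicator (fun z => ‖ρ z‖ ^ s) z : ℝ) : ℂ) ∂ν =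
        ((∫ z, P.indicator (fun z => ‖ρ z‖ ^ s) z ∂ν : ℝ) : ℂ) := integral_ofReal
    rw [h1, integral_indicator hPm]
  have hgq : ∀ z, ‖g z‖ ^ q = P.indicator (fun z => ‖ρ z‖ ^ s) z := by
    intro z
    by_cases hz : z ∈ P
    · rw [hgn z hz, indicator_of_mem hz, ← Real.rpow_mul (norm_nonneg _), hsq]
    · rw [hg0 z hz, indicator_of_notMem hz, norm_zero, Real.zero_rpow (by linarith)]
  have hne : eLpNorm g (ENNReal.ofReal q) ν ≤ ENNReal.ofReal (J ^ (1 / q)) := by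
    refine le_of_eq ?_
    have hgv : MemLp g (ENNReal.ofReal q) ν := by
      have h1 : MemLp (P.indicator fun _ => (n : ℝ) ^ (s - 1)) (ENNReal.ofReal q) ν :=
        memLp_indicator_const _ hPm _ (Or.inr hPf)
      refine h1.mono hgm.aestronglyMeasurable (Eventually.of_forall fun z => ?_)
      by_cases hz : z ∈ P
      · rw [indicator_of_mem hz, Real.norm_of_nonneg (by positivity)]
        exact hBd.bd z
      · rw [hg0 z hz, norm_zero]
        exact norm_nonneg _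
    rw [hgv.eLpNorm_eq_integral_rpow_norm (by
      rw [Ne, ENNReal.ofReal_eq_zero, not_le]; linarith) ENNReal.ofReal_ne_top,
      ENNReal.toReal_ofReal (by linarith), ← one_div]
    simp_rw [hgq]
    rw [integral_indicator hPm]
  have hmain : J ≤ (C * ‖φ‖) * J ^ (1 / q) := by
    have h1 : ‖φ (Λ g)‖ ≤ ‖φ‖ * (C * J ^ (1 / q)) := by
      refine (φ.le_opNorm _).trans (mul_le_mul_of_nonneg_left ?_ (norm_nonneg _))
      refine (hΛ.bd g 0 n _ hBd).trans (mul_le_mul_of_nonneg_left ?_ hΛ.nonneg)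
      exact ENNReal.toReal_le_of_le_ofReal (by positivity) hne
    rw [hv, Complex.norm_real, Real.norm_of_nonneg hJ0] at h1
    linarith
  have hfin : J ≤ (C * ‖φ‖) ^ s := by
    have hCn : 0 ≤ C * ‖φ‖ := mul_nonneg hΛ.nonneg (norm_nonneg _)
    rcases hJ0.eq_or_lt with h0 | h0
    · rw [← h0]
      positivity
    · have h1 : J ^ (1 - 1 / q) ≤ C * ‖φ‖ := by
        rw [Real.rpow_sub h0, Real.rpow_one, div_le_iff₀ (by positivity)]
        exact hmain
      have h2 : (J ^ (1 - 1 / q)) ^ s ≤ (C * ‖φ‖) ^ s :=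
        Real.rpow_le_rpow (by positivity) h1 (by linarith)
      rw [← Real.rpow_mul hJ0] at h2
      have h3 : (1 - 1 / q) * s = 1 := by
        rw [hs]
        field_simp
      rwa [h3, Real.rpow_one] at h2
  rw [← ofReal_integral_eq_lintegral_ofReal hI
    (Eventually.of_forall fun z => Real.rpow_nonneg (norm_nonneg _) _)]
  exact ENNReal.ofReal_le_ofReal hfin

theorem den_lq (hΛ : Lq ν q C Λ) (hq : 1 < q) (φ : V →L[ℂ] ℂ) :
    ∫⁻ z, ENNReal.ofReal (‖den hΛ hq φ z‖ ^ (q / (q - 1))) ∂ν ≤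
      ENNReal.ofReal ((C * ‖φ‖) ^ (q / (q - 1))) := by
  set P : ℕ → Set ℂ := fun n => {z | ‖den hΛ hq φ z‖ ≤ n} ∩ ball 0 n with hP
  have hU : ⋃ n, P n = univ := by
    refine eq_univ_of_forall fun z => ?_
    obtain ⟨n, hn⟩ := exists_nat_gt (max ‖den hΛ hq φ z‖ ‖z‖)
    refine mem_iUnion.2 ⟨n, ((le_max_left _ _).trans hn.le), ?_⟩
    rw [mem_ball_zero_iff]
    exact (le_max_right _ _).trans_lt hn
  have hmono : Monotone P := by
    intro n m hnm z hz
    have h1 : (n : ℝ) ≤ m := by exact_mod_cast hnm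
    exact ⟨le_trans hz.1 h1, ball_subset_ball h1 hz.2⟩
  rw [← setLIntegral_univ, ← hU, setLIntegral_iUnion_of_directed _ hmono.directed_le]
  exact iSup_le fun n => den_part hΛ hq φ n

theorem den_sq (hΛ : Lq ν q C Λ) (hq : 2 ≤ q) (ψ : ℕ → (V →L[ℂ] ℂ))
    (hψ : Summable fun i => ‖ψ i‖ ^ (q / (q - 1))) :
    ∀ᵐ z ∂ν, nn (fun i => den hΛ (by linarith) (ψ i) z) ≠ ⊤ := by
  have hq0 : 0 < q - 1 := by linarith
  have hs0 : 0 < q / (q - 1) := by positivity
  have hs2 : q / (q - 1) ≤ 2 := by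
    rw [div_le_iff₀ hq0]
    linarith
  have hm : ∀ i, Measurable fun z => ENNReal.ofReal (‖den hΛ (by linarith) (ψ i) z‖ ^ (q / (q - 1))) :=
    fun i => ((den_meas hΛ (by linarith) (ψ i)).norm.pow_const _).ennreal_ofReal
  have h1 : ∫⁻ z, ∑' i, ENNReal.ofReal (‖den hΛ (by linarith) (ψ i) z‖ ^ (q / (q - 1))) ∂ν ≠ ⊤ := by
    rw [lintegral_tsum fun i => (hm i).aemeasurable]
    refine ne_top_of_le_ne_top ?_ (ENNReal.tsum_le_tsum fun i => den_lq hΛ (by linarith) (ψ i))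
    have h2 : Summable fun i => (C * ‖ψ i‖) ^ (q / (q - 1)) := by
      refine (hψ.mul_left (C ^ (q / (q - 1)))).congr fun i => ?_
      rw [Real.mul_rpow hΛ.nonneg (norm_nonneg _)]
    rw [← ENNReal.ofReal_tsum_of_nonneg (fun i => Real.rpow_nonneg
      (mul_nonneg hΛ.nonneg (norm_nonneg _)) _) h2]
    exact ENNReal.ofReal_ne_top
  filter_upwards [ae_lt_top (Measurable.tsum hm) h1] with z hz
  exact sum_pow hs0 hs2 hz.ne

end

end Pool.Agent.N812.BB
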