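import Pool.Agent.N812.BB.La

/-!
# The main theorem for measures of dimension greater than one
-/

set_option autoImplicit false

namespace Pool.Agent.N812.BB

open MeasureTheory Set Metric Filter Topology
open Pool.Agent.R277.SP (FC cK zz ad ad_apply ad_apply2 ev ev_apply adΦ adΦ_apply)
open Pool.Agent.N812.IS (ind ind_bd nn)
open Pool.Agent.N812.BA (bm orb orb_apply PNuc Chb)
open Pool.Agent.Y271.RO (Bd)
open Pool.Agent.Y283.NK (HasHyp)
open scoped InnerProductSpace ENNReal NNReal BoundedContinuousFunction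

section

variable {X : Type} [NormedAddCommGroup X] [NormedSpace ℂ X]

lemma sum_rpow {s : ℕ → ℝ} (hs : ∀ j, 0 ≤ s j) {p e : ℝ} (hp : 0 < p) (he : p ≤ e)
    (h : Summable fun j => s j ^ p) : Summable fun j => s j ^ e := by
  have h1 : ∀ᶠ j in cofinite, s j ^ p < 1 := h.tendsto_cofinite_zero.eventually_lt_const one_pos
  refine Summable.of_norm_bounded_eventually h ?_
  filter_upwards [h1] with j hj
  have h4 : s j < 1 := by
    by_contra hcon
    push Not at hcon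
    have := Real.one_le_rpow hcon hp.le
    linarith
  rw [Real.norm_of_nonneg (Real.rpow_nonneg (hs j) _)]
  rcases (hs j).eq_or_lt with h0 | h0
  · rw [← h0, Real.zero_rpow (by linarith), Real.zero_rpow hp.ne']
  · exact Real.rpow_le_rpow_of_exponent_ge h0 h4.le he

/-- unbalanced representations -/
theorem unb {p τ q : ℝ} (hp : 0 < p) (hτ : 1 < τ) (hq1 : 1 < q) (hqτ : q / (q - 1) ≤ τ)
    (hpq : p * (1 / τ + 1 - 1 / q) ≤ 1) {K : X →L[ℂ] X} (h : PNuc p K) :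
    ∃ (u : ℕ → X) (v : ℕ → (X →L[ℂ] ℂ)), (Summable fun j => ‖u j‖ ^ τ) ∧
      (Summable fun j => ‖v j‖ ^ τ) ∧ (Summable fun j => ‖v j‖ ^ (q / (q - 1))) ∧
      ∀ x, HasSum (fun j => v j x • u j) (K x) := by
  obtain ⟨u, v, h1, h2⟩ := h
  have hq0 : 0 < q - 1 := by linarith
  have hτ0 : 0 < τ := by linarith
  have hq2 : 0 < q := by linarith
  set s : ℕ → ℝ := fun j => ‖v j‖ * ‖u j‖ with hs
  have hs0 : ∀ j, 0 ≤ s j := fun j => by positivity
  set σ : ℝ := q / (q - 1) with hσ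
  have hσ0 : 0 < σ := by positivity
  have hσi : 1 / σ = 1 - 1 / q := by
    rw [hσ]
    field_simp
  set β : ℝ := p / τ with hβ
  have hβ0 : 0 < β := by positivity
  have hsum : p / τ + p / σ ≤ 1 := by
    have : p / τ + p / σ = p * (1 / τ + 1 - 1 / q) := by
      rw [div_eq_mul_one_div p σ, hσi]
      ring
    linarith
  have hpσ : 0 < p / σ := by positivity
  have hβ1 : β < 1 := by linarith
  have hασ : p ≤ (1 - β) * σ := by
    have h3 : p / σ ≤ 1 - β := by linarith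
    rwa [div_le_iff₀ hσ0] at h3
  have hbal : ∀ j, ∃ (u' : X) (v' : X →L[ℂ] ℂ), ‖u'‖ ≤ s j ^ β ∧ ‖v'‖ ≤ s j ^ (1 - β) ∧
      ∀ x, v' x • u' = v j x • u j := by
    intro j
    by_cases h0 : s j = 0
    · refine ⟨0, 0, by rw [norm_zero]; exact Real.rpow_nonneg (hs0 j) _,
        by rw [norm_zero]; exact Real.rpow_nonneg (hs0 j) _, fun x => ?_⟩
      rcases mul_eq_zero.1 h0 with h3 | h3
      · rw [norm_eq_zero.1 h3]
        simp
      · rw [norm_eq_zero.1 h3]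
        simp
    · have hvn : 0 < ‖v j‖ := (norm_nonneg _).lt_of_ne fun h => h0 (by
        rw [hs]; simp only; rw [← h, zero_mul])
      have hun : 0 < ‖u j‖ := (norm_nonneg _).lt_of_ne fun h => h0 (by
        rw [hs]; simp only; rw [← h, mul_zero])
      have hsp : 0 < s j := mul_pos hvn hun
      set t : ℝ := s j ^ β with ht
      have htp : 0 < t := Real.rpow_pos_of_pos hsp _
      have htt : t * s j ^ (1 - β) = s j := by
        rw [ht, ← Real.rpow_add hsp, add_sub_cancel, Real.rpow_one]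
      set γ : ℝ := t / ‖u j‖ with hγ
      have hγ0 : 0 < γ := by positivity
      refine ⟨(γ : ℂ) • u j, ((γ : ℂ)⁻¹) • v j, ?_, ?_, fun x => ?_⟩
      · rw [norm_smul, Complex.norm_real, Real.norm_of_nonneg hγ0.le, hγ,
          div_mul_cancel₀ _ hun.ne']
      · rw [norm_smul, norm_inv, Complex.norm_real, Real.norm_of_nonneg hγ0.le, hγ, inv_div,
          div_mul_eq_mul_div, div_le_iff₀ htp, mul_comm, mul_comm _ t, htt]
      · have : (γ : ℂ) ≠ 0 := by exact_mod_cast hγ0.ne'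
        simp only [smul_apply, smul_smul, smul_eq_mul]
        congr 1
        field_simp
  choose u' v' hu' hv' huv using hbal
  have hU : Summable fun j => ‖u' j‖ ^ τ := by
    refine Summable.of_nonneg_of_le (fun j => by positivity) (fun j => ?_) h1
    have h3 : (s j ^ β) ^ τ = s j ^ p := by
      rw [← Real.rpow_mul (hs0 j), hβ, div_mul_cancel₀ _ hτ0.ne']
    calc ‖u' j‖ ^ τ ≤ (s j ^ β) ^ τ := Real.rpow_le_rpow (norm_nonneg _) (hu' j) hτ0.le
      _ = s j ^ p := h3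
  have hVgen : ∀ e : ℝ, 0 < e → p ≤ (1 - β) * e → Summable fun j => ‖v' j‖ ^ e := by
    intro e he hpe
    refine Summable.of_nonneg_of_le (fun j => by positivity) (fun j => ?_)
      (sum_rpow hs0 hp hpe h1)
    rw [Real.rpow_mul (hs0 j)]
    exact Real.rpow_le_rpow (norm_nonneg _) (hv' j) he.le
  refine ⟨u', v', hU, hVgen τ hτ0 ?_, hVgen σ hσ0 hασ, fun x => ?_⟩
  · exact hασ.trans (mul_le_mul_of_nonneg_left hqτ (by linarith))
  · exact (h2 x).congr_fun fun j => huv j x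

variable {S : Set ℂ} {ν : Measure ℂ}

/-- `‖h(N) x‖ ≤ C ‖h‖_{L^q(ν)}` -/
def AcV (ν : Measure ℂ) (Φ : C(S, ℂ) →ₐ[ℂ] (X →L[ℂ] X)) (q : ℝ) (x : X) : Prop :=
  ∃ C : ℝ, ∀ h : C(ℂ, ℂ), ‖Φ (h.restrict S) x‖ ≤ C * (∫ z, ‖h z‖ ^ q ∂ν) ^ (1 / q)

variable [CompactSpace S] {Φ : C(S, ℂ) →ₐ[ℂ] (X →L[ℂ] X)} {N : X →L[ℂ] X} {M q : ℝ} {x : X}

lemma orb_of (hF : FC Φ N M) (hx : AcV ν Φ q x) : ∃ C, Orb ν S N (orb Φ x) q C := by
  obtain ⟨C, hC⟩ := hx
  refine ⟨|C|, abs_nonneg C, fun h h' he => ?_, fun h => ?_⟩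
  · rw [orb_apply, orb_apply, ← hF.id]
    have h1 : h' = zz S * h := by
      ext s
      exact he s
    rw [h1, map_mul]
    rfl
  · refine (hC h).trans (mul_le_mul_of_nonneg_right (le_abs_self C) ?_)
    positivity

omit [CompactSpace S] in
/-- positivity of the measure where the density does not vanish -/
lemma dens_pos {ρ g : ℂ → ℂ} {c : ℂ} {r : ℝ} (h : ∫ z, g z * ρ z ∂ν ≠ 0)
    (hs : ∀ᵐ z ∂ν, z ∉ ball c r → g z = 0) : ν ({z | ρ z ≠ 0} ∩ ball c r) ≠ 0 := by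
  intro h0
  apply h
  rw [measure_eq_zero_iff_ae_notMem] at h0
  rw [integral_congr_ae (g := fun _ => 0)]
  · simp
  · filter_upwards [h0, hs] with z hz hsz
    by_contra hne
    apply hz
    refine ⟨fun h1 => hne (by rw [h1, mul_zero]), ?_⟩
    by_contra h2
    exact hne (by rw [hsz h2, zero_mul])

theorem one [CompleteSpace X] [IsFiniteMeasure ν] (hF : FC Φ N M) {τ : ℝ} {D : ℝ≥0} (hτ : 1 < τ)
    (hτ2 : τ ≤ 2) (hP : Pb ν S τ D) (hνS : ν Sᶜ = 0) (hq : τ / (τ - 1) ≤ q) (hx : AcV ν Φ q x)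
    {p : ℝ} (hp : 0 < p) (hpq : p * (1 / τ + 1 - 1 / q) ≤ 1) {K : X →L[ℂ] X} (hK : PNuc p K) :
    (∀ (c : ℂ) (r : ℝ) (h : C(ℂ, ℂ)), 0 < r → (∀ z, z ∉ ball c r → h z = 0) →
      Φ (h.restrict S) x ≠ 0 → Chb (N + K) c r) ∧
    (x ≠ 0 → ∃ Q : Set ℂ, MeasurableSet Q ∧ ν Q ≠ 0 ∧ ∀ (c : ℂ) (r : ℝ), 0 < r →
      ν (Q ∩ ball c r) ≠ 0 → Chb (N + K) c r) := by
  have hSc : IsCompact S := isCompact_iff_compactSpace.2 inferInstance
  have hτ1 : 0 < τ - 1 := by linarith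
  -- the exponents
  set q₀ : ℝ := τ / (τ - 1) with hq₀
  have hq₀2 : 2 ≤ q₀ := by
    rw [hq₀, le_div_iff₀ hτ1]
    linarith
  have hq₀1 : 1 < q₀ := by linarith
  have hconj : q₀.HolderConjugate τ := by
    have h1 := Real.HolderConjugate.conjExponent hτ
    exact h1.symm
  have hτq₀ : q₀ / (q₀ - 1) = τ := by
    rw [hq₀]
    field_simp
    ring
  have hq2 : 2 ≤ q := hq₀2.trans hq
  have hq1 : 1 < q := by linarith
  have hqτ : q / (q - 1) ≤ τ := by
    rw [← hτq₀, div_le_div_iff₀ (by linarith) (by linarith)]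
    nlinarith
  have hfact : Fact (1 ≤ ENNReal.ofReal q) := ⟨by
    rw [← ENNReal.ofReal_one]
    exact ENNReal.ofReal_le_ofReal hq1.le⟩
  obtain ⟨C, hO⟩ := orb_of hF hx
  obtain ⟨u, v, hu, hv, hv2, hsum⟩ := unb hp hτ hq1 hqτ hpq hK
  have hR := sr_of hF hconj hP
  have hC := hR.cal hq₀1
  have hPt : Pert ν (fun y : X →L[ℂ] ℂ => y) (wf hR (by linarith)) u v K :=
    hR.pert hq₀2 (by rw [hτq₀]; exact hu) (by rw [hτq₀]; exact hv) hsum
  have hSae : ∀ᵐ z ∂ν, z ∈ S := by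
    rw [ae_iff]
    exact hνS
  have hbdS : ∀ a : ℂ, ∃ D : ℝ, 0 ≤ D ∧ ∀ᵐ z ∂ν, ‖z - a‖ ≤ D := by
    intro a
    obtain ⟨D, hD⟩ := hSc.isBounded.exists_norm_le
    refine ⟨|D| + ‖a‖, by positivity, ?_⟩
    filter_upwards [hSae] with z hz
    exact (norm_sub_le _ _).trans (add_le_add ((hD z hz).trans (le_abs_self D)) le_rfl)
  have hL := lam_lq hO hq1
  have hV : Vec ν N (fun y : X →L[ℂ] ℂ => y) (lam ν (orb Φ x) q) (fun y => den hL hq1 y) := by
    refine ⟨fun a c r B g hg => ?_, fun r hr => ?_, fun y => den_meas hL hq1 y,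
      fun y a r B g hg => den_rep hL hq1 y a r B g hg⟩
    · obtain ⟨D, hD0, hD⟩ := hbdS a
      exact lam_step hO hq1 hD0 hD (bd_memLp hg)
    · refine ⟨C * (ν univ).toReal ^ (1 / q), mul_nonneg hO.nonneg (by positivity),
        fun a B g hg => ?_⟩
      refine (lam_norm hO hq1 (bd_memLp hg)).trans ?_
      rw [mul_assoc]
      refine mul_le_mul_of_nonneg_left ?_ hO.nonneg
      rw [mul_comm]
      exact eLp_bd hg.nonneg hq1 hg.bd MeasurableSet.univ fun z hz => absurd (mem_univ z) hz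
  have hsq := den_sq hL hq2 v hv2
  have key : ∀ (y : X →L[ℂ] ℂ) (c : ℂ) (r : ℝ), 0 < r →
      ν ({z | den hL hq1 y z ≠ 0} ∩ ball c r) ≠ 0 → Chb (N + K) c r :=
    fun y c r hr hpos => half hC hPt hV (fun i j => wf_meas hR _ _ _) hsq y c hr hpos
  refine ⟨fun c r h hr hh hne => ?_, fun hx0 => ?_⟩
  · have hcs : HasCompactSupport h := by
      refine HasCompactSupport.intro (isCompact_closedBall c r) fun z hz => hh z fun hz' => ?_
      exact hz (ball_subset_closedBall hz')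
    obtain ⟨b, hb⟩ := hcs.exists_bound_of_continuous h.continuous
    have hb0 : 0 ≤ b := (norm_nonneg _).trans (hb 0)
    have hBd : Bd (fun z => h z) c r b := ⟨h.continuous.measurable, hb0, hb, hh⟩
    have e1 : lam ν (orb Φ x) q (fun z => h z) = Φ (h.restrict S) x :=
      lam_bcf hO hq1 (BoundedContinuousFunction.ofNormedAddCommGroup h h.continuous b hb)
    obtain ⟨y, hy⟩ : ∃ y : X →L[ℂ] ℂ, y (Φ (h.restrict S) x) ≠ 0 := by
      by_contra hcon
      push Not at hcon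
      exact hne (SeparatingDual.eq_zero_of_forall_dual_eq_zero (R := ℂ) hcon)
    refine key y c r hr (dens_pos (g := fun z => h z) ?_ (Eventually.of_forall hh))
    rw [← (den_rep hL hq1 y c r b _ hBd).2, e1]
    exact hy
  · obtain ⟨D, hD⟩ := hSc.isBounded.exists_norm_le
    have hSD : S ⊆ ball (0:ℂ) (|D| + 1) := fun z hz => by
      rw [mem_ball_zero_iff]
      exact (hD z hz).trans_lt (by linarith [le_abs_self D])
    have hBd : Bd (ind (ball (0:ℂ) (|D| + 1))) 0 (|D| + 1) 1 := ind_bd measurableSet_ball subset_rfl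
    have e1 : lam ν (orb Φ x) q (ind (ball (0:ℂ) (|D| + 1))) = x := by
      have h1 := lam_bcf hO hq1 (BoundedContinuousFunction.const ℂ (1 : ℂ))
      have h2 : bm (orb Φ x) (BoundedContinuousFunction.const ℂ (1 : ℂ)) = x := by
        show Φ _ x = x
        have h3 : (BoundedContinuousFunction.const ℂ (1 : ℂ)).toContinuousMap.restrict S = 1 := by
          ext s
          rfl
        rw [h3, map_one]
        rfl
      rw [h2] at h1
      have hm : MemLp (fun z => (BoundedContinuousFunction.const ℂ (1 : ℂ)) z)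
          (ENNReal.ofReal q) ν :=
        (BoundedContinuousFunction.const ℂ (1 : ℂ)).memLp_top.mono_exponent le_top
      have h4 : lam ν (orb Φ x) q (ind (ball (0:ℂ) (|D| + 1))) =
          lam ν (orb Φ x) q (fun z => (BoundedContinuousFunction.const ℂ (1 : ℂ)) z) := by
        rw [lam_eq hm, lam_eq (bd_memLp hBd)]
        congr 1
        rw [MemLp.toLp_eq_toLp_iff]
        filter_upwards [hSae] with z hz
        exact indicator_of_mem (hSD hz) _
      rw [h4, h1]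
    obtain ⟨y, hy⟩ : ∃ y : X →L[ℂ] ℂ, y x ≠ 0 := by
      by_contra hcon
      push Not at hcon
      exact hx0 (SeparatingDual.eq_zero_of_forall_dual_eq_zero (R := ℂ) hcon)
    refine ⟨{z | den hL hq1 y z ≠ 0},
      (measurableSet_eq_fun (den_meas hL hq1 y) measurable_const).compl, fun h0 => ?_,
      fun c r hr hpos => key y c r hr hpos⟩
    have h1 := dens_pos (ν := ν) (ρ := den hL hq1 y) (g := ind (ball (0:ℂ) (|D| + 1))) (c := 0)
      (r := |D| + 1) (by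
        rw [← (den_rep hL hq1 y 0 _ 1 _ hBd).2, e1]
        exact hy) (Eventually.of_forall hBd.supp)
    exact h1 (measure_mono_null inter_subset_left h0)

omit [CompactSpace S] in
/-- points of the support -/
lemma ex_c {Q : Set ℂ} (hQ : ν Q ≠ 0) {c' : ℂ} (hc' : ν {c'} = 0) :
    ∃ c : ℂ, c ≠ c' ∧ ∀ r : ℝ, 0 < r → ν (Q ∩ ball c r) ≠ 0 := by
  have h1 : ν (Q \ {c'}) ≠ 0 := by
    rw [measure_sdiff_null hc']
    exact hQ
  obtain ⟨c, hc, h2⟩ := exists_mem_forall_mem_nhdsWithin_pos_measure h1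
  refine ⟨c, hc.2, fun r hr h0 => ?_⟩
  have h3 := h2 ((Q \ {c'}) ∩ ball c r)
    (inter_mem_nhdsWithin _ (ball_mem_nhds c hr))
  exact h3.ne' (measure_mono_null (inter_subset_inter_left _ sdiff_subset) h0)

omit [CompactSpace S] in
lemma no_atom {τ : ℝ} {D : ℝ≥0} (hτ : 0 < τ) (hP : Pb ν S τ D) (hνS : ν Sᶜ = 0) (c : ℂ) :
    ν {c} = 0 := by
  by_cases hc : c ∈ S
  · have := hP.ne hτ hc
    rw [ae_iff] at this
    simpa using this
  · exact measure_mono_null (by simpa using hc) hνS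

end

/-- intertwining -/
lemma Chb.map {Y X : Type} [NormedAddCommGroup Y] [NormedSpace ℂ Y] [NormedAddCommGroup X]
    [NormedSpace ℂ X] {A : Y →L[ℂ] Y} {T : X →L[ℂ] X} {J : Y →L[ℂ] X} (hJ : Function.Injective J)
    (hT : ∀ y, T (J y) = J (A y)) {c : ℂ} {r : ℝ} (h : Chb A c r) : Chb T c r := by
  obtain ⟨Y, C, h0, hb, hs⟩ := h
  have h0' : J (Y 0) ≠ 0 := fun h => h0 (hJ (by rw [h, map_zero]))
  refine ⟨fun j => J (Y j), ‖J‖ * C, h0', fun j => ?_, fun j => ?_⟩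
  · calc ‖J (Y j)‖ ≤ ‖J‖ * ‖Y j‖ := J.le_opNorm _
      _ ≤ ‖J‖ * (C * r ^ j) := mul_le_mul_of_nonneg_left (hb j) (norm_nonneg _)
      _ = _ := by ring
  · show T (J (Y j)) - c • J (Y j) = J (Y (j + 1))
    rw [hT, ← map_smul, ← map_sub, hs j]

/-- the vectors at many points -/
def Many {Y : Type} [NormedAddCommGroup Y] [NormedSpace ℂ Y] (A : Y →L[ℂ] Y) : Prop :=
  ∀ c' : ℂ, ∃ c : ℂ, c ≠ c' ∧ ∀ r : ℝ, 0 < r → Chb A c r

/-- **The main theorem** -/
theorem main {X Y V : Type} [NormedAddCommGroup X] [NormedSpace ℂ X] [CompleteSpace X]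
    [NormedAddCommGroup Y] [NormedSpace ℂ Y] [NormedAddCommGroup V] [NormedSpace ℂ V]
    {T : X →L[ℂ] X} {A : Y →L[ℂ] Y} {B : V →L[ℂ] V} {J : Y →L[ℂ] X} {J' : V →L[ℂ] (X →L[ℂ] ℂ)}
    (hJ : Function.Injective J) (hJ' : Function.Injective J') (h : ∀ y, T (J y) = J (A y))
    (h' : ∀ y, ad T (J' y) = J' (B y)) (hA : Many A) (hB : Many B) : HasHyp T := by
  obtain ⟨c₁, -, h1⟩ := hA 0
  obtain ⟨c₂, hne, h2⟩ := hB c₁
  have hd : 0 < ‖c₁ - c₂‖ := norm_pos_iff.2 (sub_ne_zero.2 (Ne.symm hne))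
  obtain ⟨x', C, hx'0, hx'b, hx'⟩ := Chb.map hJ h (h1 (‖c₁ - c₂‖ / 3) (by positivity))
  obtain ⟨y', C', hy'0, hy'b, hy'⟩ := Chb.map hJ' h' (h2 (‖c₁ - c₂‖ / 3) (by positivity))
  exact Pool.Agent.R277.SP.ann T c₁ c₂ _ _ C C' x' y' (by positivity) (by positivity)
    (by linarith) hx' hx'b hy' hy'b hx'0 hy'0

theorem many {X : Type} [NormedAddCommGroup X] [NormedSpace ℂ X] [CompleteSpace X] {S : Set ℂ}
    [CompactSpace S] {Φ : C(S, ℂ) →ₐ[ℂ] (X →L[ℂ] X)} {N : X →L[ℂ] X} {M q : ℝ} {x : X}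
    {ν : Measure ℂ} [IsFiniteMeasure ν] (hF : FC Φ N M) {τ : ℝ} {D : ℝ≥0} (hτ : 1 < τ)
    (hτ2 : τ ≤ 2) (hP : Pb ν S τ D) (hνS : ν Sᶜ = 0) (hq : τ / (τ - 1) ≤ q) (hx : AcV ν Φ q x)
    (hx0 : x ≠ 0) {p : ℝ} (hp : 0 < p) (hpq : p * (1 / τ + 1 - 1 / q) ≤ 1) {K : X →L[ℂ] X}
    (hK : PNuc p K) : Many (N + K) := by
  intro c'
  obtain ⟨Q, -, hQ0, hQ⟩ := (one hF hτ hτ2 hP hνS hq hx hp hpq hK).2 hx0
  obtain ⟨c, hc, h1⟩ := ex_c hQ0 (no_atom (by linarith) hP hνS c')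
  exact ⟨c, hc, fun r hr => hQ c r hr (h1 r hr)⟩

end Pool.Agent.N812.BB
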