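import Pool.Agent.N812.BB.Ca

/-!
# Vectors with small local spectra for `N + K`
-/

set_option autoImplicit false

namespace Pool.Agent.N812.BB

open MeasureTheory Set Metric Filter Topology
open Pool.Agent.R276.CP Pool.Agent.R276.CP.Fat
open Pool.Agent.N812.IS (nn nn_meas nn_summable tl tl_meas tl_zero Xi Mu Mu.toBd Mu.coord Zs Zl ball_sub coord_meas
  coord_le l2 Top Top_apply Xi_meas vec vec_apply vec_meas ee)
open Pool.Agent.N812.BA (Gc Dc Dc_meas Dc_eq ker_of ker_meas' Chb bd_eta)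
open Pool.Agent.Y271.RO (Bd)
open Pool.Agent.N812.WO (kr mem_kr ker_lim Rn inverseS_meas sm_app ind_meas ind_le)
open scoped InnerProductSpace ENNReal NNReal

variable {ν : Measure ℂ} [IsFiniteMeasure ν]

/-- the pairs -/
structure Pair (ν : Measure ℂ) (F : ℕ → ℕ → ℂ → ℂ) (b : ℂ → ℕ → ℂ) (η : ℂ → ℂ) (c : ℂ → l2) : Prop where
  em : Measurable η
  eb : ∀ z, ‖η z‖ ≤ 1
  cm : StronglyMeasurable c
  eq : ∀ᵐ z ∂ν, ∀ i, ∃ s, HasSum (fun j => F i j z * (c z : ℕ → ℂ) j) s ∧
    (c z : ℕ → ℂ) i = η z * b z i + s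

lemma pair_of {F : ℕ → ℕ → ℂ → ℂ} (hF : ∀ i j, Measurable (F i j))
    (hX : ∀ᵐ z ∂ν, Xi F z ≠ ⊤) {b : ℂ → ℕ → ℂ}
    (hba : ∀ᵐ z ∂ν, nn (b z) ≠ ⊤) {η : ℂ → ℂ} {c : ℂ → l2} (hη : Measurable η)
    (hη1 : ∀ z, ‖η z‖ ≤ 1) (hc : StronglyMeasurable c)
    (h : ∀ z, Dc F z (c z) = η z • vec (b z)) : Pair ν F b η c := by
  refine ⟨hη, hη1, hc, ?_⟩
  filter_upwards [hX, hba] with z h1 h2 i
  have h4 : Gc F z = Top F z := indicator_of_mem (show z ∈ {z | Xi F z ≠ ⊤} from h1) _
  refine ⟨_, Top_apply h1 (c z) i, ?_⟩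
  have h5 := h z
  rw [Dc_eq, h4] at h5
  have h7 := congrArg (fun x : l2 => (x : ℕ → ℂ) i) h5
  simp only at h7
  rw [lp.coeFn_sub, lp.coeFn_smul, Pi.sub_apply, Pi.smul_apply, vec_apply (nn_summable h2),
    smul_eq_mul] at h7
  rw [← h7]
  ring

theorem pair_ex {F : ℕ → ℕ → ℂ → ℂ} (hF : ∀ i j, Measurable (F i j))
    (hX : ∀ᵐ z ∂ν, Xi F z ≠ ⊤) {b : ℂ → ℕ → ℂ}
    (hb : ∀ j, Measurable fun z => b z j) (hba : ∀ᵐ z ∂ν, nn (b z) ≠ ⊤) {A : Set ℂ}
    (hA : MeasurableSet A) (hA0 : ν A ≠ 0) :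
    ∃ (η : ℂ → ℂ) (c : ℂ → l2), Pair ν F b η c ∧
      ¬ ∀ᵐ z ∂(ν.restrict A), η z = 0 ∧ c z = 0 := by
  have hI : StronglyMeasurable fun z => Ring.inverse (Dc F z) := inverseS_meas (Dc_meas hF)
  have hun : MeasurableSet {z | IsUnit (Dc F z)} := by
    borelize (l2 →L[ℂ] l2)
    exact (Dc_meas hF).measurable Units.isOpen.measurableSet
  by_cases hm : ν (A ∩ {z | IsUnit (Dc F z)}) = 0
  · by_contra hcon
    push Not at hcon
    have h1 : ∀ j : ℕ, ∀ᵐ z ∂(ν.restrict A), (kr (Dc F z)).starProjection (ee j) = 0 := by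
      intro j
      have hp : Pair ν F b (fun _ => 0) (fun z => (kr (Dc F z)).starProjection (ee j)) := by
        refine pair_of hF hX hba measurable_const (fun z => by simp) (ker_meas' hF j) fun z => ?_
        have h2 : (kr (Dc F z)).starProjection (ee j) ∈ kr (Dc F z) :=
          Submodule.starProjection_apply_mem _ _
        rw [mem_kr] at h2
        rw [h2, zero_smul]
      filter_upwards [hcon _ _ hp] with z hz
      exact hz.2
    apply hA0
    have h2 : ∀ᵐ z ∂(ν.restrict A), False := by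
      rw [ae_restrict_iff' hA]
      have h3 := (ae_restrict_iff' hA).1 (ae_all_iff.2 h1)
      have h4 := measure_eq_zero_iff_ae_notMem.1 hm
      filter_upwards [h3, h4] with z h5 h6 hz
      have h7 : ¬ IsUnit (Dc F z) := fun h' => h6 ⟨hz, h'⟩
      obtain ⟨j, hj⟩ := ker_of h7
      exact hj (h5 hz j)
    have h3 : (ν.restrict A) univ = 0 := by
      rw [ae_iff] at h2
      simpa using h2
    rwa [Measure.restrict_apply_univ] at h3
  · set P : Set ℂ := {z | IsUnit (Dc F z)} with hP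
    refine ⟨P.indicator fun _ => 1, P.indicator fun z => Ring.inverse (Dc F z) (vec (b z)),
      pair_of hF hX hba (ind_meas hun) (fun z => by exact_mod_cast ind_le P z)
        ((sm_app hI (vec_meas hb)).indicator hun) fun z => ?_, fun hcon => ?_⟩
    · by_cases hz : z ∈ P
      · rw [indicator_of_mem hz, indicator_of_mem hz, one_smul]
        have h1 := Ring.mul_inverse_cancel _ hz
        exact congrArg (fun R : l2 →L[ℂ] l2 => R (vec (b z))) h1
      · rw [indicator_of_notMem hz, indicator_of_notMem hz, zero_smul, map_zero]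
    · apply hm
      rw [ae_restrict_iff' hA] at hcon
      rw [measure_eq_zero_iff_ae_notMem]
      filter_upwards [hcon] with z hz hz2
      have := (hz hz2.1).1
      rw [indicator_of_mem hz2.2] at this
      exact one_ne_zero this

/-- the vectors `Λ g = g(N) x`, `φ i (Λ g) = ∫ g ρ i` -/
structure Vec {E ι : Type} [NormedAddCommGroup E] [NormedSpace ℂ E] (ν : Measure ℂ) (N : E →L[ℂ] E)
    (φ : ι → (E →L[ℂ] ℂ)) (Λ : (ℂ → ℂ) → E) (ρ : ι → ℂ → ℂ) : Prop where
  step : ∀ (a c : ℂ) (r B : ℝ) (g : ℂ → ℂ), Bd g c r B →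
    N (Λ g) - a • Λ g = Λ (fun z => (z - a) * g z)
  bdd : ∀ r : ℝ, 0 < r → ∃ C : ℝ, 0 ≤ C ∧ ∀ (a : ℂ) (B : ℝ) (g : ℂ → ℂ), Bd g a r B → ‖Λ g‖ ≤ C * B
  meas : ∀ i, Measurable (ρ i)
  rep : ∀ (i : ι) (a : ℂ) (r B : ℝ) (g : ℂ → ℂ), Bd g a r B →
    Integrable (fun z => g z * ρ i z) ν ∧ φ i (Λ g) = ∫ z, g z * ρ i z ∂ν

section

variable {E ι : Type} [NormedAddCommGroup E] [NormedSpace ℂ E] {N : E →L[ℂ] E}
    {R : (ℂ → ℂ) → (E →L[ℂ] E)} {φ : ι → (E →L[ℂ] ℂ)} {f : ι → E → ℂ → ℂ} {u : ℕ → E} {v : ℕ → ι}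
    {K : E →L[ℂ] E} {c : ℂ → l2} {g η : ℂ → ℂ} {a : ℂ} {r B : ℝ} {Λ : (ℂ → ℂ) → E} {ρ : ι → ℂ → ℂ}

variable [CompleteSpace E]

/-- the vector of a multiplier -/
noncomputable def Xv (Λ : (ℂ → ℂ) → E) (R : (ℂ → ℂ) → (E →L[ℂ] E)) (u : ℕ → E) (η : ℂ → ℂ)
    (c : ℂ → l2) (g : ℂ → ℂ) : E := Λ (fun z => g z * η z) + Zl R u c g

/-- the value of the functionals of the perturbation -/
lemma Xv_val (hC : Cal ν N R φ f) (hP : Pert ν φ f u v K) (hV : Vec ν N φ Λ ρ)
    (hp : Pair ν (fun i j z => f (v i) (u j) z) (fun z i => ρ (v i) z) η c) (hg : Mu c g a r B)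
    (i : ℕ) : φ (v i) (Xv Λ R u η c g) = ∫ z, g z * (c z : ℕ → ℂ) i ∂ν := by
  choose! s hs1 hs2 using fun z (h : ∀ i, ∃ s, HasSum (fun j => f (v i) (u j) z *
    (c z : ℕ → ℂ) j) s ∧ (c z : ℕ → ℂ) i = η z * ρ (v i) z + s) => h i
  obtain ⟨i1, i2⟩ := Zl_val hC hP hp.cm hg (v i) (s := s) (hp.eq.mono fun z hz => hs1 z hz)
  obtain ⟨i3, i4⟩ := hV.rep (v i) a r B _ (bd_eta hp.em hp.eb hg.toBd)
  unfold Xv
  rw [map_add, i2, i4, ← integral_add i3 i1]
  refine integral_congr_ae (hp.eq.mono fun z hz => ?_)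
  simp only
  rw [hs2 z hz]
  ring

theorem Xv_step (hC : Cal ν N R φ f) (hP : Pert ν φ f u v K) (hV : Vec ν N φ Λ ρ)
    (hp : Pair ν (fun i j z => f (v i) (u j) z) (fun z i => ρ (v i) z) η c) (hg : Mu c g a r B)
    (b : ℂ) : (N + K) (Xv Λ R u η c g) - b • Xv Λ R u η c g =
      Xv Λ R u η c (fun z => (z - b) * g z) := by
  have hc := hp.cm
  have hg' := Pool.Agent.N812.BA.Mu.mulz hg b
  have t1 := Zl_tendsto hC hP hc hg
  have t2 := Zl_tendsto hC hP hc hg'
  have hpart : ∀ n, N (Zs R u c g n) - b • Zs R u c g n =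
      Zs R u c (fun z => (z - b) * g z) n -
        ∑ j ∈ Finset.range n, (∫ z, g z * (c z : ℕ → ℂ) j ∂ν) • u j := by
    intro n
    unfold Zs
    rw [map_sum, Finset.smul_sum, ← Finset.sum_sub_distrib, ← Finset.sum_sub_distrib]
    refine Finset.sum_congr rfl fun j _ => ?_
    rw [hC.step b a r B _ (u j) (hg.coord hc j)]
    congr 3
    funext z
    ring
  have hK : Tendsto (fun n => ∑ j ∈ Finset.range n, (∫ z, g z * (c z : ℕ → ℂ) j ∂ν) • u j) atTop
      (𝓝 (K (Xv Λ R u η c g))) := by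
    refine (hP.sum (Xv Λ R u η c g)).congr fun n => ?_
    exact Finset.sum_congr rfl fun j _ => by rw [Xv_val hC hP hV hp hg j]
  have hN : Tendsto (fun n => N (Zs R u c g n) - b • Zs R u c g n) atTop
      (𝓝 (N (Zl R u c g) - b • Zl R u c g)) :=
    ((N.continuous.tendsto _).comp t1).sub (t1.const_smul b)
  have hN2 : N (Zl R u c g) - b • Zl R u c g =
      Zl R u c (fun z => (z - b) * g z) - K (Xv Λ R u η c g) := by
    refine tendsto_nhds_unique hN ?_
    refine (t2.sub hK).congr fun n => ?_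
    exact (hpart n).symm
  have h5 := hV.step b a r B _ (bd_eta hp.em hp.eb hg.toBd)
  have e2 : (fun z => (z - b) * (g z * η z)) = fun z => (z - b) * g z * η z := by
    funext z
    ring
  rw [e2] at h5
  have e1 : (N + K) (Xv Λ R u η c g) - b • Xv Λ R u η c g =
      (N (Λ fun z => g z * η z) - b • Λ fun z => g z * η z) +
        (N (Zl R u c g) - b • Zl R u c g) + K (Xv Λ R u η c g) := by
    rw [add_apply]
    unfold Xv
    simp only [map_add, smul_add]
    abel
  rw [e1, h5, hN2]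
  unfold Xv
  abel

lemma Xv_bound (hC : Cal ν N R φ f) (hP : Pert ν φ f u v K) (hV : Vec ν N φ Λ ρ)
    (hp : Pair ν (fun i j z => f (v i) (u j) z) (fun z i => ρ (v i) z) η c) (a : ℂ) {r : ℝ}
    (hr : 0 < r) : ∃ C : ℝ, 0 ≤ C ∧ ∀ (g : ℂ → ℂ) (B : ℝ), Mu c g a r B →
      ‖Xv Λ R u η c g‖ ≤ C * B := by
  obtain ⟨C₁, h1, h2⟩ := Zl_bound hC hP hp.cm a r
  obtain ⟨C₂, h3, h4⟩ := hV.bdd r hr
  refine ⟨C₂ + C₁, add_nonneg h3 h1, fun g B hg => ?_⟩
  unfold Xv
  refine (norm_add_le _ _).trans ?_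
  rw [add_mul]
  refine add_le_add (h4 a B _ (bd_eta hp.em hp.eb hg.toBd)) ?_
  exact le_of_tendsto' (Zl_tendsto hC hP hp.cm hg).norm fun n => h2 g B hg n

omit [CompleteSpace E] in
/-- functions which vanish almost everywhere -/
lemma R_zero (hC : Cal ν N R φ f) {h : ℂ → ℂ} (hh : Bd h a r B) (h0 : ∀ᵐ z ∂ν, h z = 0) (x : E) :
    R h x = 0 := by
  have h1 := hC.norming (R h x) 0 le_rfl fun i => by
    rw [(hC.rep i x a r B h hh).2, integral_congr_ae (g := fun _ => 0)]
    · simp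
    · filter_upwards [h0] with z hz
      rw [hz, zero_mul]
  exact norm_le_zero_iff.1 h1

/-- **Vectors with small local spectra** -/
theorem half (hC : Cal ν N R φ f) (hP : Pert ν φ f u v K) (hV : Vec ν N φ Λ ρ)
    (hf : ∀ i j, Measurable (f (v i) (u j)))
    (hsq : ∀ᵐ z ∂ν, nn (fun i => ρ (v i) z) ≠ ⊤) (i₀ : ι) (c₀ : ℂ) {r : ℝ} (hr : 0 < r)
    (hpos : ν ({z | ρ i₀ z ≠ 0} ∩ ball c₀ r) ≠ 0) : Chb (N + K) c₀ r := by
  set A : Set ℂ := {z | ρ i₀ z ≠ 0} ∩ ball c₀ r with hAd
  have hA : MeasurableSet A :=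
    (measurableSet_eq_fun (hV.meas i₀) measurable_const).compl.inter measurableSet_ball
  obtain ⟨η, c, hp, hne⟩ := pair_ex (F := fun i j z => f (v i) (u j) z) (fun i j => hf i j) hP.b1
    (b := fun z i => ρ (v i) z) (fun i => hV.meas _) hsq hA hpos
  -- nonvanishing
  obtain ⟨m, F', hF', hFA, hFm, hX⟩ : ∃ (m : ℕ) (F' : Set ℂ), MeasurableSet F' ∧ F' ⊆ A ∧
      (∀ z ∈ F', ‖c z‖ ≤ m) ∧ Xv Λ R u η c (F'.indicator fun _ => 1) ≠ 0 := by
    by_contra hcon
    push Not at hcon
    apply hne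
    set P : ℕ → Set ℂ := fun m => A ∩ {z | ‖c z‖ ≤ m} with hPd
    have hPm : ∀ m, MeasurableSet (P m) := fun m =>
      hA.inter (measurableSet_le hp.cm.norm.measurable measurable_const)
    have hMu : ∀ (m : ℕ) (F' : Set ℂ), MeasurableSet F' → F' ⊆ P m →
        Mu c (F'.indicator fun _ => (1:ℂ)) c₀ r (1 + m) := by
      intro m F' hF' hs
      refine ⟨ind_meas hF', by positivity, fun z => ?_, fun z hz => ?_⟩
      · by_cases hz : z ∈ F'
        · rw [indicator_of_mem hz, norm_one, one_mul]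
          have := (hs hz).2
          simp only [mem_setOf_eq] at this
          linarith
        · rw [indicator_of_notMem hz, norm_zero, zero_mul]
          positivity
      · exact indicator_of_notMem (fun h => hz (hs h).1.2) _
    have key : ∀ m : ℕ, ∀ᵐ z ∂(ν.restrict (P m)), η z = 0 ∧ c z = 0 := by
      intro m
      have hcz : ∀ i : ℕ, ∀ᵐ z ∂(ν.restrict (P m)), (c z : ℕ → ℂ) i = 0 := by
        intro i
        have hPf : ν (P m) ≠ ⊤ := measure_ne_top ν _
        have hci : IntegrableOn (fun z => (c z : ℕ → ℂ) i) (P m) ν := by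
          refine Measure.integrableOn_of_bounded (M := m) hPf
            (coord_meas hp.cm i).aestronglyMeasurable ?_
          refine (ae_restrict_iff' (hPm m)).2 (Eventually.of_forall fun z hz => ?_)
          exact (coord_le _ _).trans hz.2
        refine hci.ae_eq_zero_of_forall_setIntegral_eq_zero fun s hs _ => ?_
        rw [Measure.restrict_restrict hs]
        have h1 := Xv_val hC hP hV hp (hMu m (s ∩ P m) (hs.inter (hPm m)) inter_subset_right) i
        rw [hcon m (s ∩ P m) (hs.inter (hPm m)) (inter_subset_right.trans inter_subset_left)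
          (fun z hz => hz.2.2), map_zero] at h1
        rw [← integral_indicator (hs.inter (hPm m)), h1]
        congr 1
        funext z
        by_cases hz : z ∈ s ∩ P m
        · rw [indicator_of_mem hz, indicator_of_mem hz, one_mul]
        · rw [indicator_of_notMem hz, indicator_of_notMem hz, zero_mul]
      have hc0 : ∀ᵐ z ∂(ν.restrict (P m)), c z = 0 := by
        filter_upwards [ae_all_iff.2 hcz] with z hz
        ext i
        exact hz i
      have hηz : ∀ᵐ z ∂(ν.restrict (P m)), η z * ρ i₀ z = 0 := by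
        have hb := bd_eta hp.em hp.eb (hMu m (P m) (hPm m) subset_rfl).toBd
        have hI := (hV.rep i₀ c₀ r (1 + m) _ hb).1
        have e0 : (fun z => (P m).indicator (fun _ => (1:ℂ)) z * η z * ρ i₀ z) =
            (P m).indicator fun z => η z * ρ i₀ z := by
          funext z
          by_cases hz : z ∈ P m
          · rw [indicator_of_mem hz, indicator_of_mem hz, one_mul]
          · rw [indicator_of_notMem hz, indicator_of_notMem hz, zero_mul, zero_mul]
        rw [e0, integrable_indicator_iff (hPm m)] at hI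
        refine hI.ae_eq_zero_of_forall_setIntegral_eq_zero fun s hs _ => ?_
        rw [Measure.restrict_restrict hs]
        set F' := s ∩ P m with hF'
        have hF'm : MeasurableSet F' := hs.inter (hPm m)
        have hM := hMu m F' hF'm inter_subset_right
        have h1 := hcon m F' hF'm (inter_subset_right.trans inter_subset_left)
          (fun z hz => hz.2.2)
        have h2 : Zl R u c (F'.indicator fun _ => 1) = 0 := by
          have h3 : Zs R u c (F'.indicator fun _ => 1) = fun _ => 0 := by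
            funext n
            unfold Zs
            refine Finset.sum_eq_zero fun j _ => ?_
            refine R_zero hC (hM.coord hp.cm j) ?_ (u j)
            rw [ae_restrict_iff' (hPm m)] at hc0
            filter_upwards [hc0] with z hz
            by_cases hzF : z ∈ F'
            · rw [hz hzF.2]
              simp
            · rw [indicator_of_notMem hzF, zero_mul]
          unfold Zl
          rw [h3]
          exact tendsto_const_nhds.limUnder_eq
        unfold Xv at h1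
        rw [h2, add_zero] at h1
        have h4 := (hV.rep i₀ c₀ r (1 + m) _ (bd_eta hp.em hp.eb hM.toBd)).2
        rw [h1, map_zero] at h4
        rw [← integral_indicator hF'm, h4]
        congr 1
        funext z
        by_cases hz : z ∈ F'
        · rw [indicator_of_mem hz, indicator_of_mem hz, one_mul]
        · rw [indicator_of_notMem hz, indicator_of_notMem hz, zero_mul, zero_mul]
      have hmem : ∀ᵐ z ∂(ν.restrict (P m)), z ∈ P m := ae_restrict_mem (hPm m)
      filter_upwards [hc0, hηz, hmem] with z h1 h2 h3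
      exact ⟨(mul_eq_zero.1 h2).resolve_right h3.1.1, h1⟩
    rw [ae_restrict_iff' hA]
    have h1 : ∀ᵐ z ∂ν, ∀ m : ℕ, z ∈ P m → η z = 0 ∧ c z = 0 :=
      ae_all_iff.2 fun m => (ae_restrict_iff' (hPm m)).1 (key m)
    filter_upwards [h1] with z hz hzA
    obtain ⟨m, hm⟩ := exists_nat_ge ‖c z‖
    exact hz m ⟨hzA, hm⟩
  -- the chain
  obtain ⟨C, hC0, hCb⟩ := Xv_bound hC hP hV hp c₀ hr
  set g : ℕ → ℂ → ℂ := fun j z => (z - c₀) ^ j * F'.indicator (fun _ => (1:ℂ)) z with hg
  have hMu : ∀ j, Mu c (g j) c₀ r (r ^ j * (1 + m)) := by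
    intro j
    refine ⟨((measurable_id.sub_const c₀).pow_const j).mul (ind_meas hF'), by positivity,
      fun z => ?_, fun z hz => ?_⟩
    · by_cases hz : z ∈ F'
      · simp only [hg, indicator_of_mem hz, mul_one, norm_pow]
        have h1 : z ∈ ball c₀ r := (hFA hz).2
        rw [mem_ball, dist_eq_norm] at h1
        have h2 := hFm z hz
        exact mul_le_mul (pow_le_pow_left₀ (norm_nonneg _) h1.le j) (by linarith) (by positivity)
          (by positivity)
      · simp only [hg, indicator_of_notMem hz, mul_zero, norm_zero, zero_mul]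
        positivity
    · have h1 : z ∉ F' := fun h => hz (hFA h).2
      simp only [hg, indicator_of_notMem h1, mul_zero]
  refine ⟨fun j => Xv Λ R u η c (g j), C * (1 + m), ?_, fun j => ?_, fun j => ?_⟩
  · have e : g 0 = F'.indicator fun _ => (1:ℂ) := by
      funext z
      simp only [hg, pow_zero, one_mul]
    show Xv Λ R u η c (g 0) ≠ 0
    rw [e]
    exact hX
  · refine (hCb (g j) _ (hMu j)).trans (le_of_eq ?_)
    ring
  · rw [Xv_step hC hP hV hp (hMu j) c₀]
    congr 1
    funext z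
    simp only [hg, pow_succ]
    ring

end

end Pool.Agent.N812.BB
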