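import Pool.Agent.N812.BB.Cc

/-!
# The extension of `h ↦ h(N) x` to bounded measurable functions
-/

set_option autoImplicit false

namespace Pool.Agent.N812.BB

open MeasureTheory Set Metric Filter Topology
open Pool.Agent.N812.BA (bm)
open Pool.Agent.Y271.RO (Bd)
open scoped InnerProductSpace ENNReal NNReal BoundedContinuousFunction

/-- the orbit map `A h = h(N) x` -/
structure Orb {E : Type} [NormedAddCommGroup E] [NormedSpace ℂ E] (ν : Measure ℂ) (S : Set ℂ) (N : E →L[ℂ] E)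
    (A : C(S, ℂ) →ₗ[ℂ] E) (q C : ℝ) : Prop where
  nonneg : 0 ≤ C
  step : ∀ h h' : C(S, ℂ), (∀ s : S, h' s = s * h s) → N (A h) = A h'
  bd : ∀ h : C(ℂ, ℂ), ‖A (h.restrict S)‖ ≤ C * (∫ z, ‖h z‖ ^ q ∂ν) ^ (1 / q)

section

variable {E : Type} [NormedAddCommGroup E] [NormedSpace ℂ E] {S : Set ℂ} {N : E →L[ℂ] E}
  {A : C(S, ℂ) →ₗ[ℂ] E} {q C : ℝ}

variable {ν : Measure ℂ} [IsFiniteMeasure ν] [Fact (1 ≤ ENNReal.ofReal q)]

lemma bm_bd (hO : Orb ν S N A q C) (hq : 1 < q) (h : ℂ →ᵇ ℂ) : ‖bm A h‖ ≤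
    C * ‖BoundedContinuousFunction.toLp (ENNReal.ofReal q) ν ℂ h‖ := by
  have h1 := hO.bd h.toContinuousMap
  refine h1.trans (mul_le_mul_of_nonneg_left (le_of_eq ?_) hO.nonneg)
  have hm : MemLp (fun z => h z) (ENNReal.ofReal q) ν :=
    h.memLp_top.mono_exponent le_top
  have h2 : ‖BoundedContinuousFunction.toLp (ENNReal.ofReal q) ν ℂ h‖ =
      (eLpNorm (fun z => h z) (ENNReal.ofReal q) ν).toReal := by
    rw [Lp.norm_def]
    congr 1
    exact eLpNorm_congr_ae (BoundedContinuousFunction.coeFn_toLp _ _ ℂ h)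
  rw [h2, hm.eLpNorm_eq_integral_rpow_norm (by
      rw [Ne, ENNReal.ofReal_eq_zero, not_le]; linarith) ENNReal.ofReal_ne_top,
    ENNReal.toReal_ofReal (by positivity), ENNReal.toReal_ofReal (by linarith), one_div]
  rfl

lemma toLp_dense (q : ℝ) [Fact (1 ≤ ENNReal.ofReal q)] (ν : Measure ℂ)
    [IsFiniteMeasure ν] :
    DenseRange ((BoundedContinuousFunction.toLp (α := ℂ) (E := ℂ) (ENNReal.ofReal q)
      ν ℂ : (ℂ →ᵇ ℂ) →L[ℂ] Lp ℂ (ENNReal.ofReal q) ν) :
        (ℂ →ᵇ ℂ) →ₗ[ℂ] Lp ℂ (ENNReal.ofReal q) ν) :=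
  BoundedContinuousFunction.toLp_denseRange ℂ ν ℂ ENNReal.ofReal_ne_top

variable [CompleteSpace E]

/-- the extension to `L^q` -/
noncomputable def lam0 (ν : Measure ℂ) [IsFiniteMeasure ν] (A : C(S, ℂ) →ₗ[ℂ] E) (q : ℝ) [Fact (1 ≤ ENNReal.ofReal q)] :
    Lp ℂ (ENNReal.ofReal q) ν →L[ℂ] E :=
  (bm A).extendOfNorm (BoundedContinuousFunction.toLp (α := ℂ) (E := ℂ) (ENNReal.ofReal q)
      ν ℂ : (ℂ →ᵇ ℂ) →ₗ[ℂ] Lp ℂ (ENNReal.ofReal q) ν)

open Classical in
/-- the extension -/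
noncomputable def lam (ν : Measure ℂ) [IsFiniteMeasure ν] (A : C(S, ℂ) →ₗ[ℂ] E) (q : ℝ) [Fact (1 ≤ ENNReal.ofReal q)] (g : ℂ → ℂ) : E :=
  lam0 ν A q (if h : MemLp g (ENNReal.ofReal q) ν then h.toLp g else 0)

lemma lam_eq {g : ℂ → ℂ} (h : MemLp g (ENNReal.ofReal q) ν) :
    lam ν A q g = lam0 ν A q (h.toLp g) := by
  unfold lam
  rw [dif_pos h]

lemma lam_norm (hO : Orb ν S N A q C) (hq : 1 < q) {g : ℂ → ℂ}
    (h : MemLp g (ENNReal.ofReal q) ν) :
    ‖lam ν A q g‖ ≤ C * (eLpNorm g (ENNReal.ofReal q) ν).toReal := by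
  rw [lam_eq h, ← Lp.norm_toLp g h]
  exact LinearMap.norm_extendOfNorm_apply_le (toLp_dense q ν) C (bm_bd hO hq) _

lemma lam_bcf (hO : Orb ν S N A q C) (hq : 1 < q) (h : ℂ →ᵇ ℂ) : lam ν A q (fun z => h z) = bm A h := by
  have hm : MemLp (fun z => h z) (ENNReal.ofReal q) ν :=
    h.memLp_top.mono_exponent le_top
  rw [lam_eq hm]
  have h2 : hm.toLp (fun z => h z) =
      BoundedContinuousFunction.toLp (ENNReal.ofReal q) ν ℂ h := by
    rw [Lp.ext_iff]
    exact hm.coeFn_toLp.trans (BoundedContinuousFunction.coeFn_toLp _ _ ℂ h).symm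
  rw [h2]
  exact LinearMap.extendOfNorm_eq (toLp_dense q ν) ⟨C, bm_bd hO hq⟩ h

lemma lam_add {g g' : ℂ → ℂ} (h : MemLp g (ENNReal.ofReal q) ν)
    (h' : MemLp g' (ENNReal.ofReal q) ν) :
    lam ν A q (fun z => g z + g' z) = lam ν A q g + lam ν A q g' := by
  have hs : MemLp (fun z => g z + g' z) (ENNReal.ofReal q) ν := h.add h'
  rw [lam_eq h, lam_eq h', lam_eq hs, ← map_add]
  rfl

lemma lam_smul (c : ℂ) {g : ℂ → ℂ} (h : MemLp g (ENNReal.ofReal q) ν) :
    lam ν A q (fun z => c * g z) = c • lam ν A q g := by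
  have hs : MemLp (fun z => c * g z) (ENNReal.ofReal q) ν := h.const_smul c
  rw [lam_eq h, lam_eq hs, ← map_smul]
  rfl

lemma lam_sub {g g' : ℂ → ℂ} (h : MemLp g (ENNReal.ofReal q) ν)
    (h' : MemLp g' (ENNReal.ofReal q) ν) :
    lam ν A q (fun z => g z - g' z) = lam ν A q g - lam ν A q g' := by
  have hs : MemLp (fun z => g z - g' z) (ENNReal.ofReal q) ν := h.sub h'
  rw [lam_eq h, lam_eq h', lam_eq hs, ← map_sub]
  rfl

omit [Fact (1 ≤ ENNReal.ofReal q)] in
lemma bd_memLp {g : ℂ → ℂ} {a : ℂ} {r B : ℝ} (hg : Bd g a r B) :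
    MemLp g (ENNReal.ofReal q) ν :=
  MemLp.of_bound hg.meas.aestronglyMeasurable B (Eventually.of_forall hg.bd)

omit [Fact (1 ≤ ENNReal.ofReal q)] in
lemma mulz_memLp {D : ℝ} {a : ℂ} (hD : ∀ᵐ z ∂ν, ‖z - a‖ ≤ D) {g : ℂ → ℂ}
    (h : MemLp g (ENNReal.ofReal q) ν) :
    MemLp (fun z => (z - a) * g z) (ENNReal.ofReal q) ν := by
  refine MemLp.of_le_mul (c := D) h ?_ ?_
  · exact (measurable_id.sub_const a).aestronglyMeasurable.mul h.1
  · filter_upwards [hD] with z hz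
    rw [norm_mul]
    exact mul_le_mul_of_nonneg_right hz (norm_nonneg _)

/-- the extension commutes with the operator -/
theorem lam_step (hO : Orb ν S N A q C) (hq : 1 < q) {a : ℂ} {D : ℝ}
    (hD0 : 0 ≤ D) (hD : ∀ᵐ z ∂ν, ‖z - a‖ ≤ D) {g : ℂ → ℂ}
    (hg : MemLp g (ENNReal.ofReal q) ν) :
    N (lam ν A q g) - a • lam ν A q g = lam ν A q (fun z => (z - a) * g z) := by
  rw [← sub_eq_zero, ← norm_le_zero_iff]
  refine le_of_forall_pos_le_add fun ε hε => ?_
  rw [zero_add]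
  set L : ℝ := C * (‖N‖ + ‖a‖ + D) with hL
  have hL0 : 0 ≤ L := mul_nonneg hO.nonneg (by positivity)
  set δ : ℝ := ε / (L + 1) with hδ
  have hδ0 : 0 < δ := by positivity
  obtain ⟨h, h1, h2, h3, h4⟩ := hg.exists_hasCompactSupport_eLpNorm_sub_le ENNReal.ofReal_ne_top
    (ε := ENNReal.ofReal δ) (by rw [Ne, ENNReal.ofReal_eq_zero, not_le]; exact hδ0)
  -- the continuous function
  have e0 : N (lam ν A q h) - a • lam ν A q h = lam ν A q (fun z => (z - a) * h z) := by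
    have h5 : HasCompactSupport fun z : ℂ => (z - a) * h z := h1.mul_left
    have h6 : Continuous fun z : ℂ => (z - a) * h z := (continuous_id.sub continuous_const).mul h3
    obtain ⟨b1, hb1⟩ := h1.exists_bound_of_continuous h3
    obtain ⟨b2, hb2⟩ := h5.exists_bound_of_continuous h6
    set H1 : ℂ →ᵇ ℂ := BoundedContinuousFunction.ofNormedAddCommGroup h h3 b1 hb1 with hH1
    set H2 : ℂ →ᵇ ℂ := BoundedContinuousFunction.ofNormedAddCommGroup _ h6 b2 hb2 with hH2
    have e1 : lam ν A q h = A (H1.toContinuousMap.restrict S) := lam_bcf hO hq H1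
    have e2 : lam ν A q (fun z => (z - a) * h z) = A (H2.toContinuousMap.restrict S) :=
      lam_bcf hO hq H2
    rw [e1, e2]
    have e3 := hO.step (H1.toContinuousMap.restrict S)
      (H2.toContinuousMap.restrict S + a • H1.toContinuousMap.restrict S) (fun s => by
        show (s - a) * h s + a * h s = s * h s
        ring)
    rw [e3, map_add, map_smul]
    abel
  have hd : MemLp (fun z => g z - h z) (ENNReal.ofReal q) ν := hg.sub h4
  have e4 : lam ν A q g = lam ν A q (fun z => g z - h z) + lam ν A q h := by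
    rw [lam_sub hg h4]
    abel
  have e5 : lam ν A q (fun z => (z - a) * g z) = lam ν A q (fun z => (z - a) * (g z - h z)) +
      lam ν A q (fun z => (z - a) * h z) := by
    rw [← lam_add (mulz_memLp hD hd) (mulz_memLp hD h4)]
    congr 1
    funext z
    ring
  have hn : (eLpNorm (fun z => g z - h z) (ENNReal.ofReal q) ν).toReal ≤ δ := by
    refine ENNReal.toReal_le_of_le_ofReal hδ0.le ?_
    exact h2
  have n1 : ‖lam ν A q (fun z => g z - h z)‖ ≤ C * δ :=
    (lam_norm hO hq hd).trans (mul_le_mul_of_nonneg_left hn hO.nonneg)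
  have n2 : ‖lam ν A q (fun z => (z - a) * (g z - h z))‖ ≤ C * (D * δ) := by
    refine (lam_norm hO hq (mulz_memLp hD hd)).trans (mul_le_mul_of_nonneg_left ?_ hO.nonneg)
    have h7 : eLpNorm (fun z => (z - a) * (g z - h z)) (ENNReal.ofReal q) ν ≤
        ENNReal.ofReal D * eLpNorm (fun z => g z - h z) (ENNReal.ofReal q) ν := by
      refine eLpNorm_le_mul_eLpNorm_of_ae_le_mul ?_ _
      filter_upwards [hD] with z hz
      rw [norm_mul]
      exact mul_le_mul_of_nonneg_right hz (norm_nonneg _)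
    refine ENNReal.toReal_le_of_le_ofReal (by positivity) (h7.trans ?_)
    rw [ENNReal.ofReal_mul hD0]
    exact mul_le_mul' le_rfl h2
  have e6 : N (lam ν A q g) - a • lam ν A q g - lam ν A q (fun z => (z - a) * g z) =
      N (lam ν A q (fun z => g z - h z)) - a • lam ν A q (fun z => g z - h z) -
        lam ν A q (fun z => (z - a) * (g z - h z)) := by
    rw [e4, e5, map_add, smul_add, ← e0]
    abel
  rw [e6]
  calc ‖N (lam ν A q (fun z => g z - h z)) - a • lam ν A q (fun z => g z - h z) -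
        lam ν A q (fun z => (z - a) * (g z - h z))‖
      ≤ ‖N (lam ν A q (fun z => g z - h z))‖ + ‖a • lam ν A q (fun z => g z - h z)‖ +
        ‖lam ν A q (fun z => (z - a) * (g z - h z))‖ :=
        (norm_sub_le _ _).trans (add_le_add (norm_sub_le _ _) le_rfl)
    _ ≤ ‖N‖ * (C * δ) + ‖a‖ * (C * δ) + C * (D * δ) := by
        refine add_le_add (add_le_add ?_ ?_) n2
        · exact (N.le_opNorm _).trans (mul_le_mul_of_nonneg_left n1 (norm_nonneg _))
        · rw [norm_smul]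
          exact mul_le_mul_of_nonneg_left n1 (norm_nonneg _)
    _ = L * δ := by rw [hL]; ring
    _ ≤ ε := by
        rw [hδ, mul_div_assoc', div_le_iff₀ (by positivity)]
        nlinarith

/-- the extension has an `L^q` bound -/
theorem lam_lq (hO : Orb ν S N A q C) (hq : 1 < q) : Lq ν q C (lam ν A q) := by
  refine ⟨hO.nonneg, fun g g' a r B B' hg hg' => lam_add (bd_memLp hg) (bd_memLp hg'),
    fun c g a r B hg => lam_smul c (bd_memLp hg), fun g a r B hg => lam_norm hO hq (bd_memLp hg)⟩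

end

end Pool.Agent.N812.BB
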