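import Pool.Agent.N812.BA.Fi

/-!
# Functionals on bounded functions which are integrals against a density
-/

set_option autoImplicit false

namespace Pool.Agent.N812.BB

open MeasureTheory Set Metric Filter Topology
open Pool.Agent.Y271.RO (Bd)
open Pool.Agent.N812.IS (ind ind_bd bd_add bd_smul An' An'_meas An'_sub ball_sub_An ball_sub)
open scoped ENNReal NNReal

/-- linear functionals on the bounded functions with compact support, small on functions with small
support -/
structure Fct (ν : Measure ℂ) (L : (ℂ → ℂ) → ℂ) : Prop where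
  add : ∀ (g g' : ℂ → ℂ) (r B B' : ℝ), Bd g 0 r B → Bd g' 0 r B' →
    L (fun z => g z + g' z) = L g + L g'
  smul : ∀ (c : ℂ) (g : ℂ → ℂ) (r B : ℝ), Bd g 0 r B → L (fun z => c * g z) = c * L g
  bdd : ∀ r : ℝ, ∃ C t : ℝ, 0 ≤ C ∧ 0 < t ∧ ∀ (A : Set ℂ), MeasurableSet A → A ⊆ ball 0 r →
    ∀ g : ℂ → ℂ, Bd g 0 r 1 → (∀ z, z ∉ A → g z = 0) → ‖L g‖ ≤ C * (ν A).toReal ^ t

section

variable {ν : Measure ℂ} [IsFiniteMeasure ν] {L : (ℂ → ℂ) → ℂ}

lemma Fct.zero (hL : Fct ν L) : L (fun _ => 0) = 0 := by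
  have h : Bd (fun _ : ℂ => (0 : ℂ)) 0 1 0 :=
    ⟨measurable_const, le_rfl, fun z => by simp, fun _ _ => rfl⟩
  have := hL.smul 0 _ 1 0 h
  simpa using this

/-- the bound by the norm -/
lemma Fct.norm (hL : Fct ν L) (r : ℝ) : ∃ C : ℝ, 0 ≤ C ∧ ∀ (g : ℂ → ℂ) (B : ℝ), Bd g 0 r B →
    ‖L g‖ ≤ C * B := by
  obtain ⟨C, t, hC, ht, h⟩ := hL.bdd r
  refine ⟨C * (ν (ball (0:ℂ) r)).toReal ^ t, by positivity, fun g B hg => ?_⟩
  rcases hg.nonneg.eq_or_lt with h0 | h0
  · have : g = fun _ => 0 := by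
      funext z
      have := hg.bd z
      rw [← h0] at this
      exact norm_le_zero_iff.1 this
    rw [this, hL.zero, norm_zero, ← h0, mul_zero]
  · have hb : Bd (fun z => ((B : ℂ)⁻¹) * g z) 0 r 1 := by
      have := bd_smul ((B : ℂ)⁻¹) hg
      rwa [norm_inv, Complex.norm_real, Real.norm_of_nonneg h0.le, inv_mul_cancel₀ h0.ne'] at this
    have h1 := h (ball 0 r) measurableSet_ball subset_rfl _ hb hb.supp
    rw [hL.smul _ g r B hg, norm_mul, norm_inv, Complex.norm_real, Real.norm_of_nonneg h0.le,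
      inv_mul_le_iff₀ h0] at h1
    linarith

lemma Fct.sum (hL : Fct ν L) {ι : Type} (s : Finset ι) (g : ι → ℂ → ℂ) {r : ℝ} (B : ι → ℝ)
    (hg : ∀ i ∈ s, Bd (g i) 0 r (B i)) : Bd (fun z => ∑ i ∈ s, g i z) 0 r (∑ i ∈ s, B i) ∧
      L (fun z => ∑ i ∈ s, g i z) = ∑ i ∈ s, L (g i) := by
  classical
  induction s using Finset.induction_on with
  | empty =>
    simp only [Finset.sum_empty]
    exact ⟨⟨measurable_const, le_rfl, fun z => by simp, fun _ _ => rfl⟩, hL.zero⟩
  | insert i s hi ih =>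
    obtain ⟨h1, h2⟩ := ih fun j hj => hg j (Finset.mem_insert_of_mem hj)
    have h3 := hg i (Finset.mem_insert_self i s)
    simp only [Finset.sum_insert hi]
    exact ⟨bd_add h3 h1, by rw [hL.add _ _ r _ _ h3 h1, h2]⟩

/-- countable additivity -/
lemma Fct.iUnion (hL : Fct ν L) {P : Set ℂ} (hP : MeasurableSet P) {r : ℝ} (hPr : P ⊆ ball 0 r)
    {f : ℕ → Set ℂ} (hf : ∀ i, MeasurableSet (f i)) (hd : Pairwise (Function.onFun Disjoint f)) :
    HasSum (fun i => L (ind (f i ∩ P))) (L (ind ((⋃ i, f i) ∩ P))) := by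
  classical
  obtain ⟨C, t, hC, ht, h⟩ := hL.bdd r
  set U : Finset ℕ → Set ℂ := fun s => (⋃ i : {i // i ∉ s}, f i) ∩ P with hU
  have hUm : ∀ s, MeasurableSet (U s) := fun s => (MeasurableSet.iUnion fun i => hf _).inter hP
  have hUr : ∀ s, U s ⊆ ball 0 r := fun s => inter_subset_right.trans hPr
  have hfm : ∀ i, MeasurableSet (f i ∩ P) := fun i => (hf i).inter hP
  have hfr : ∀ i, f i ∩ P ⊆ ball 0 r := fun i => inter_subset_right.trans hPr
  -- the decomposition
  have hdec : ∀ s : Finset ℕ, ind ((⋃ i, f i) ∩ P) =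
      fun z => (∑ i ∈ s, ind (f i ∩ P) z) + ind (U s) z := by
    intro s
    funext z
    by_cases hz : z ∈ (⋃ i, f i) ∩ P
    · obtain ⟨hz1, hzP⟩ := hz
      obtain ⟨k, hk⟩ := mem_iUnion.1 hz1
      have huniq : ∀ i, z ∈ f i → i = k := by
        intro i hi
        by_contra hne
        exact (Set.disjoint_left.1 (hd hne)) hi hk
      have e1 : ind ((⋃ i, f i) ∩ P) z = 1 :=
        indicator_of_mem (show z ∈ (⋃ i, f i) ∩ P from ⟨hz1, hzP⟩) _
      have e2 : ∀ i, ind (f i ∩ P) z = if i = k then 1 else 0 := by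
        intro i
        split_ifs with hik
        · rw [hik]
          exact indicator_of_mem (show z ∈ f k ∩ P from ⟨hk, hzP⟩) _
        · exact indicator_of_notMem (show z ∉ f i ∩ P from fun h' => hik (huniq i h'.1)) _
      simp_rw [e2]
      rw [e1, Finset.sum_ite_eq']
      by_cases hks : k ∈ s
      · have e3 : ind (U s) z = 0 := by
          refine indicator_of_notMem (show z ∉ U s from fun h' => ?_) _
          obtain ⟨⟨i, hi⟩, hi'⟩ := mem_iUnion.1 h'.1
          have := huniq i hi'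
          exact hi (this ▸ hks)
        rw [if_pos hks, e3, add_zero]
      · have e3 : ind (U s) z = 1 :=
          indicator_of_mem (show z ∈ U s from ⟨mem_iUnion.2 ⟨⟨k, hks⟩, hk⟩, hzP⟩) _
        rw [if_neg hks, e3, zero_add]
    · have e1 : ind ((⋃ i, f i) ∩ P) z = 0 := indicator_of_notMem hz _
      have e2 : ∀ i, ind (f i ∩ P) z = 0 := fun i =>
        indicator_of_notMem (show z ∉ f i ∩ P from fun h' => hz ⟨mem_iUnion.2 ⟨i, h'.1⟩, h'.2⟩) _
      have e3 : ind (U s) z = 0 := by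
        refine indicator_of_notMem (show z ∉ U s from fun h' => ?_) _
        obtain ⟨⟨i, hi⟩, hi'⟩ := mem_iUnion.1 h'.1
        exact hz ⟨mem_iUnion.2 ⟨i, hi'⟩, h'.2⟩
      rw [e1, e3]
      simp [e2]
  have hval : ∀ s : Finset ℕ, L (ind ((⋃ i, f i) ∩ P)) =
      ∑ i ∈ s, L (ind (f i ∩ P)) + L (ind (U s)) := by
    intro s
    obtain ⟨h1, h2⟩ := hL.sum s (fun i => ind (f i ∩ P)) (r := r) (fun _ => 1)
      fun i _ => ind_bd (hfm i) (hfr i)
    rw [hdec s, hL.add _ _ r _ _ h1 (ind_bd (hUm s) (hUr s)), h2]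
  have hsmall : Tendsto (fun s : Finset ℕ => L (ind (U s))) atTop (𝓝 0) := by
    have hfin : ∑' i, ν (f i ∩ P) ≠ ⊤ := by
      rw [← measure_iUnion (fun i j hij => (hd hij).mono inter_subset_left inter_subset_left) hfm]
      refine (lt_of_le_of_lt (measure_mono ?_) (measure_lt_top ν (ball (0:ℂ) r))).ne
      exact iUnion_subset fun i => hfr i
    have h1 := ENNReal.tendsto_tsum_compl_atTop_zero hfin
    have h2 : Tendsto (fun s : Finset ℕ => (ν (U s)).toReal) atTop (𝓝 0) := by
      have h3 : ∀ s : Finset ℕ, ν (U s) ≤ ∑' i : {i // i ∉ s}, ν (f i ∩ P) := by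
        intro s
        rw [hU]
        simp only
        rw [iUnion_inter]
        exact measure_iUnion_le _
      have h4 : Tendsto (fun s : Finset ℕ => ν (U s)) atTop (𝓝 0) :=
        tendsto_of_tendsto_of_tendsto_of_le_of_le tendsto_const_nhds h1 (fun _ => bot_le) h3
      have h5 := (ENNReal.tendsto_toReal (ENNReal.zero_ne_top)).comp h4
      rw [ENNReal.toReal_zero] at h5
      exact h5
    have h3 : Tendsto (fun s : Finset ℕ => C * (ν (U s)).toReal ^ t) atTop (𝓝 0) := by
      have h4 := (h2.rpow_const (p := t) (Or.inr ht.le)).const_mul C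
      rwa [Real.zero_rpow ht.ne', mul_zero] at h4
    refine squeeze_zero_norm (fun s => ?_) h3
    exact h _ (hUm s) (hUr s) _ (ind_bd (hUm s) (hUr s)) fun z hz => indicator_of_notMem hz _
  have h6 : Tendsto (fun s : Finset ℕ => L (ind ((⋃ i, f i) ∩ P)) - L (ind (U s))) atTop
      (𝓝 (L (ind ((⋃ i, f i) ∩ P)) - 0)) := tendsto_const_nhds.sub hsmall
  rw [sub_zero] at h6
  refine h6.congr fun s => ?_
  rw [hval s]
  ring

/-- the signed measures -/
noncomputable def vm (hL : Fct ν L) {P : Set ℂ} (hP : MeasurableSet P) {r : ℝ} (hPr : P ⊆ ball 0 r)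
    (φ : ℂ →L[ℝ] ℝ) : SignedMeasure ℂ := by
  classical
  exact
  { measureOf' := fun A => if MeasurableSet A then φ (L (ind (A ∩ P))) else 0
    empty' := by
      rw [if_pos MeasurableSet.empty, empty_inter]
      have : ind ∅ = fun _ => 0 := by
        funext z
        exact indicator_of_notMem (notMem_empty z) _
      rw [this, hL.zero, map_zero]
    not_measurable' := fun A hA => if_neg hA
    m_iUnion' := fun f hf hd => by
      simp only [hf, if_true, MeasurableSet.iUnion hf]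
      exact (hL.iUnion hP hPr hf hd).mapL φ }

lemma vm_apply (hL : Fct ν L) {P : Set ℂ} (hP : MeasurableSet P) {r : ℝ} (hPr : P ⊆ ball 0 r)
    (φ : ℂ →L[ℝ] ℝ) {A : Set ℂ} (hA : MeasurableSet A) :
    vm hL hP hPr φ A = φ (L (ind (A ∩ P))) := if_pos hA

lemma vm_density (hL : Fct ν L) {P : Set ℂ} (hP : MeasurableSet P) {r : ℝ} (hPr : P ⊆ ball 0 r)
    (φ : ℂ →L[ℝ] ℝ) : ∃ d : ℂ → ℝ, Measurable d ∧ Integrable d ν ∧ ∀ A, MeasurableSet A →
      φ (L (ind (A ∩ P))) = ∫ z in A, d z ∂ν := by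
  obtain ⟨C, t, hC, ht, h⟩ := hL.bdd r
  have hac : vm hL hP hPr φ ≪ᵥ ν.toENNRealVectorMeasure := by
    refine VectorMeasure.AbsolutelyContinuous.mk fun A hA h0 => ?_
    rw [Measure.toENNRealVectorMeasure_apply_measurable hA] at h0
    rw [vm_apply hL hP hPr φ hA]
    have h1 : ν (A ∩ P) = 0 := measure_mono_null inter_subset_left h0
    have h2 := h (A ∩ P) (hA.inter hP) (inter_subset_right.trans hPr) _
      (ind_bd (hA.inter hP) (inter_subset_right.trans hPr)) fun z hz => indicator_of_notMem hz _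
    rw [h1, ENNReal.toReal_zero, Real.zero_rpow ht.ne', mul_zero] at h2
    rw [norm_le_zero_iff.1 h2, map_zero]
  refine ⟨(vm hL hP hPr φ).rnDeriv ν, SignedMeasure.measurable_rnDeriv _ _,
    SignedMeasure.integrable_rnDeriv _ _, fun A hA => ?_⟩
  rw [← withDensityᵥ_apply (SignedMeasure.integrable_rnDeriv _ _) hA,
    SignedMeasure.withDensityᵥ_rnDeriv_eq _ _ hac, vm_apply hL hP hPr φ hA]

lemma cdens (hL : Fct ν L) {P : Set ℂ} (hP : MeasurableSet P) {r : ℝ} (hPr : P ⊆ ball 0 r) :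
    ∃ d : ℂ → ℂ, Measurable d ∧ Integrable d ν ∧ ∀ A, MeasurableSet A →
      L (ind (A ∩ P)) = ∫ z in A, d z ∂ν := by
  obtain ⟨d1, m1, i1, e1⟩ := vm_density hL hP hPr Complex.reCLM
  obtain ⟨d2, m2, i2, e2⟩ := vm_density hL hP hPr Complex.imCLM
  have i1' : Integrable (fun z => ((d1 z : ℝ) : ℂ)) ν := i1.ofReal
  have i2' : Integrable (fun z => ((d2 z : ℝ) : ℂ)) ν := i2.ofReal
  refine ⟨fun z => (d1 z : ℂ) + (d2 z : ℂ) * Complex.I,
    (Complex.measurable_ofReal.comp m1).add ((Complex.measurable_ofReal.comp m2).mul_const _),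
    i1'.add (i2'.mul_const _), fun A hA => ?_⟩
  rw [integral_add i1'.integrableOn (i2'.mul_const _).integrableOn, integral_mul_const]
  have h1 : ∫ z in A, ((d1 z : ℝ) : ℂ) ∂ν = ((∫ z in A, d1 z ∂ν : ℝ) : ℂ) := integral_ofReal
  have h2 : ∫ z in A, ((d2 z : ℝ) : ℂ) ∂ν = ((∫ z in A, d2 z ∂ν : ℝ) : ℂ) := integral_ofReal
  rw [h1, h2, ← e1 A hA, ← e2 A hA]
  exact (Complex.re_add_im _).symm

/-- the density on all of `ℂ` -/
theorem gdens (hL : Fct ν L) : ∃ F : ℂ → ℂ, Measurable F ∧ ∀ n : ℕ, IntegrableOn F (ball 0 n) ν ∧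
    ∀ A, MeasurableSet A → A ⊆ ball 0 n → L (ind A) = ∫ z in A, F z ∂ν := by
  choose d hd1 hd2 hd3 using fun n : ℕ => cdens hL (An'_meas n) (An'_sub n)
  set F : ℂ → ℂ := fun z => d ⌊‖z‖⌋₊ z with hF
  have hFm : Measurable F := by
    have h1 : Measurable fun q : ℕ × ℂ => d q.1 q.2 := measurable_from_prod_countable_right hd1
    have h2 : Measurable fun z : ℂ => ((⌊‖z‖⌋₊ : ℕ), z) :=
      (Nat.measurable_floor.comp measurable_norm).prodMk measurable_id
    exact h1.comp h2
  have hFd : ∀ n, ∀ z ∈ An' n, F z = d n z := by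
    intro n z hz
    have : ⌊‖z‖⌋₊ = n := hz
    simp only [hF, this]
  have hdisj : ∀ (A : Set ℂ) (n : ℕ), ((Finset.range n : Finset ℕ) : Set ℕ).PairwiseDisjoint
      fun k => A ∩ An' k := by
    intro A n i _ j _ hij
    refine Set.disjoint_left.2 fun z hz1 hz2 => hij ?_
    have h1 : ⌊‖z‖⌋₊ = i := hz1.2
    have h2 : ⌊‖z‖⌋₊ = j := hz2.2
    rw [← h1, h2]
  refine ⟨F, hFm, fun n => ?_⟩
  have hint : ∀ k, IntegrableOn F (An' k) ν := fun k =>
    ((hd2 k).integrableOn (s := An' k)).congr_fun (fun z hz => (hFd k z hz).symm) (An'_meas k)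
  have hI : IntegrableOn F (ball 0 n) ν := by
    refine IntegrableOn.mono_set ?_ (ball_sub_An n)
    exact (integrableOn_finset_iUnion).2 fun k _ => hint k
  refine ⟨hI, fun A hA hAn => ?_⟩
  have hAe : A = ⋃ k ∈ Finset.range n, A ∩ An' k := by
    refine Subset.antisymm (fun z hz => ?_) ?_
    · have := ball_sub_An n (hAn hz)
      simp only [mem_iUnion] at this ⊢
      obtain ⟨k, hk, hk2⟩ := this
      exact ⟨k, hk, hz, hk2⟩
    · exact iUnion₂_subset fun k _ => inter_subset_left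
  have hm : ∀ k, MeasurableSet (A ∩ An' k) := fun k => hA.inter (An'_meas k)
  have e1 : L (ind A) = ∑ k ∈ Finset.range n, L (ind (A ∩ An' k)) := by
    obtain ⟨-, h2⟩ := hL.sum (Finset.range n) (fun k => ind (A ∩ An' k)) (r := n) (fun _ => 1)
      fun i _ => ind_bd (hm i) (inter_subset_left.trans hAn)
    rw [← h2]
    congr 1
    funext z
    by_cases hz : z ∈ A
    · have hzn : ⌊‖z‖⌋₊ ∈ Finset.range n := by
        have := hAn hz
        rw [mem_ball_zero_iff] at this
        exact Finset.mem_range.2 ((Nat.floor_lt (norm_nonneg _)).2 this)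
      rw [Finset.sum_eq_single ⌊‖z‖⌋₊]
      · have e3 : ind A z = 1 := indicator_of_mem hz _
        have e4 : ind (A ∩ An' ⌊‖z‖⌋₊) z = 1 :=
          indicator_of_mem (show z ∈ A ∩ An' ⌊‖z‖⌋₊ from ⟨hz, rfl⟩) _
        rw [e3, e4]
      · intro k _ hk
        exact indicator_of_notMem (show z ∉ A ∩ An' k from fun h' => hk (by
          have : ⌊‖z‖⌋₊ = k := h'.2
          exact this.symm)) _
      · intro h'
        exact absurd hzn h'
    · have e3 : ind A z = 0 := indicator_of_notMem hz _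
      have e4 : ∀ k, ind (A ∩ An' k) z = 0 := fun k =>
        indicator_of_notMem (show z ∉ A ∩ An' k from fun h' => hz h'.1) _
      simp only [e3, e4, Finset.sum_const_zero]
  have e2 : ∀ k, L (ind (A ∩ An' k)) = ∫ z in A ∩ An' k, F z ∂ν := by
    intro k
    have h1 := hd3 k (A ∩ An' k) (hm k)
    rw [inter_assoc, inter_self] at h1
    rw [h1]
    exact setIntegral_congr_fun (hm k) fun z hz => (hFd k z hz.2).symm
  rw [e1]
  conv_rhs => rw [hAe]
  rw [integral_biUnion_finset _ (fun k _ => hm k) (hdisj A n)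
    fun k _ => (hint k).mono_set inter_subset_right]
  exact Finset.sum_congr rfl fun k _ => e2 k

/-! ### bounded functions -/

/-- a functional which vanishes on the indicator functions vanishes -/
lemma real_case {T : (ℂ → ℂ) → ℂ} {r C : ℝ}
    (hadd : ∀ (g g' : ℂ → ℂ) (B B' : ℝ), Bd g 0 r B → Bd g' 0 r B' →
      T (fun z => g z + g' z) = T g + T g')
    (hsmul : ∀ (c : ℂ) (g : ℂ → ℂ) (B : ℝ), Bd g 0 r B → T (fun z => c * g z) = c * T g)
    (hb : ∀ (g : ℂ → ℂ) (B : ℝ), Bd g 0 r B → ‖T g‖ ≤ C * B)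
    (h0 : ∀ A, MeasurableSet A → A ⊆ ball 0 r → T (ind A) = 0) {g : ℂ → ℝ} (hg : Measurable g)
    (hg0 : ∀ z, 0 ≤ g z) (hg1 : ∀ z, g z ≤ 1) (hgs : ∀ z, z ∉ ball (0:ℂ) r → g z = 0) :
    T (fun z => (g z : ℂ)) = 0 := by
  classical
  have hgB : Bd (fun z => (g z : ℂ)) 0 r 1 := by
    refine ⟨Complex.measurable_ofReal.comp hg, zero_le_one, fun z => ?_, fun z hz => ?_⟩
    · rw [Complex.norm_real, Real.norm_of_nonneg (hg0 z)]
      exact hg1 z
    · rw [hgs z hz, Complex.ofReal_zero]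
  -- the level sets
  have key : ∀ n : ℕ, ‖T (fun z => (g z : ℂ))‖ ≤ C * (1 / ((n : ℝ) + 1)) := by
    intro n
    set A : ℕ → Set ℂ := fun k => {z | ((k : ℝ) + 1) / ((n : ℝ) + 1) ≤ g z} with hA
    have hAm : ∀ k, MeasurableSet (A k) := fun k => measurableSet_le measurable_const hg
    have hAr : ∀ k, A k ⊆ ball 0 r := by
      intro k z hz
      by_contra hcon
      have h1 : ((k : ℝ) + 1) / ((n : ℝ) + 1) ≤ g z := hz
      rw [hgs z hcon] at h1
      have h2 : 0 < ((k : ℝ) + 1) / ((n : ℝ) + 1) := by positivity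
      linarith
    have hsum : ∀ s : Finset ℕ, Bd (fun z => ∑ k ∈ s, ind (A k) z) 0 r (∑ _k ∈ s, 1) ∧
        T (fun z => ∑ k ∈ s, ind (A k) z) = 0 := by
      intro s
      induction s using Finset.induction_on with
      | empty =>
        simp only [Finset.sum_empty]
        have h1 : Bd (fun _ : ℂ => (0 : ℂ)) 0 r 0 :=
          ⟨measurable_const, le_rfl, fun z => by simp, fun _ _ => rfl⟩
        refine ⟨h1, ?_⟩
        have := hsmul 0 _ 0 h1
        simpa using this
      | insert i s hi ih =>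
        have h3 := ind_bd (hAm i) (hAr i)
        simp only [Finset.sum_insert hi]
        exact ⟨bd_add h3 ih.1, by rw [hadd _ _ _ _ h3 ih.1, h0 _ (hAm i) (hAr i), ih.2, add_zero]⟩
    obtain ⟨b1, e1⟩ := hsum (Finset.range (n + 1))
    set c : ℂ := -(((n : ℝ) + 1 : ℝ) : ℂ)⁻¹ with hc
    have b2 := bd_smul c b1
    have hval : ∀ z, ∑ k ∈ Finset.range (n + 1), ind (A k) z = (⌊((n : ℝ) + 1) * g z⌋₊ : ℂ) := by
      intro z
      have h1 : ∀ k ∈ Finset.range (n + 1), ind (A k) z =
          if k < ⌊((n : ℝ) + 1) * g z⌋₊ then (1 : ℂ) else 0 := by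
        intro k _
        have h2 : z ∈ A k ↔ k < ⌊((n : ℝ) + 1) * g z⌋₊ := by
          rw [Nat.lt_iff_add_one_le, Nat.le_floor_iff (by have := hg0 z; positivity)]
          simp only [hA, mem_setOf_eq]
          rw [div_le_iff₀ (by positivity), mul_comm (g z)]
          push_cast
          exact Iff.rfl
        by_cases hz : z ∈ A k
        · rw [if_pos (h2.1 hz)]
          exact indicator_of_mem hz _
        · rw [if_neg fun h => hz (h2.2 h)]
          exact indicator_of_notMem hz _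
      rw [Finset.sum_congr rfl h1, Finset.sum_ite, Finset.sum_const_zero, add_zero,
        Finset.sum_const, nsmul_eq_mul, mul_one]
      congr 1
      have h3 : ⌊((n : ℝ) + 1) * g z⌋₊ ≤ n + 1 := by
        refine Nat.floor_le_of_le ?_
        push_cast
        have := hg1 z
        nlinarith
      have h4 : (Finset.range (n + 1)).filter (fun k => k < ⌊((n : ℝ) + 1) * g z⌋₊) =
          Finset.range ⌊((n : ℝ) + 1) * g z⌋₊ := by
        ext k
        simp only [Finset.mem_filter, Finset.mem_range]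
        omega
      rw [h4, Finset.card_range]
    have b3 : Bd (fun z => (g z : ℂ) + c * ∑ k ∈ Finset.range (n + 1), ind (A k) z) 0 r
        (1 / ((n : ℝ) + 1)) := by
      refine ⟨hgB.meas.add b2.meas, by positivity, fun z => ?_, fun z hz => ?_⟩
      · rw [hval z, hc]
        have h5 : (g z : ℂ) + -(((n : ℝ) + 1 : ℝ) : ℂ)⁻¹ * (⌊((n : ℝ) + 1) * g z⌋₊ : ℂ) =
            ((g z - ((n : ℝ) + 1)⁻¹ * (⌊((n : ℝ) + 1) * g z⌋₊ : ℝ) : ℝ) : ℂ) := by
          push_cast
          ring
        rw [h5, Complex.norm_real]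
        have h6 := Nat.floor_le (show 0 ≤ ((n : ℝ) + 1) * g z by have := hg0 z; positivity)
        have h7 := Nat.lt_floor_add_one (((n : ℝ) + 1) * g z)
        have h8 : g z - ((n : ℝ) + 1)⁻¹ * (⌊((n : ℝ) + 1) * g z⌋₊ : ℝ) =
            (((n : ℝ) + 1) * g z - (⌊((n : ℝ) + 1) * g z⌋₊ : ℝ)) / ((n : ℝ) + 1) := by
          field_simp
        rw [h8, Real.norm_of_nonneg (div_nonneg (by linarith) (by positivity))]
        exact div_le_div_of_nonneg_right (by linarith) (by positivity)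
      · rw [hgs z hz, b1.supp z hz]
        simp
    have e3 : T (fun z => (g z : ℂ) + c * ∑ k ∈ Finset.range (n + 1), ind (A k) z) =
        T (fun z => (g z : ℂ)) := by
      rw [hadd _ _ _ _ hgB b2, hsmul c _ _ b1, e1, mul_zero, add_zero]
    rw [← e3]
    exact hb _ _ b3
  have hlim : Tendsto (fun n : ℕ => C * (1 / ((n : ℝ) + 1))) atTop (𝓝 (C * 0)) :=
    tendsto_one_div_add_atTop_nhds_zero_nat.const_mul C
  rw [mul_zero] at hlim
  exact norm_le_zero_iff.1 (ge_of_tendsto' hlim key)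

/-- the representation -/
theorem fct_rep (hL : Fct ν L) : ∃ F : ℂ → ℂ, Measurable F ∧
    ∀ (a : ℂ) (r B : ℝ) (g : ℂ → ℂ), Bd g a r B →
      Integrable (fun z => g z * F z) ν ∧ L g = ∫ z, g z * F z ∂ν := by
  obtain ⟨F, hFm, hF⟩ := gdens hL
  refine ⟨F, hFm, fun a r B g hg' => ?_⟩
  -- a large disc about zero
  obtain ⟨n, hn⟩ := exists_nat_gt (‖a‖ + r)
  have hg : Bd g 0 n B := ⟨hg'.meas, hg'.nonneg, hg'.bd, fun z hz => hg'.supp z fun h =>
    hz (ball_subset_ball hn.le (ball_sub a r h))⟩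
  obtain ⟨hI, hA⟩ := hF n
  have hint : ∀ (g : ℂ → ℂ) (B : ℝ), Bd g 0 n B → Integrable (fun z => g z * F z) ν := by
    intro g B hg
    have h1 : Integrable ((ball (0:ℂ) n).indicator F) ν :=
      (integrable_indicator_iff measurableSet_ball).2 hI
    have h2 : (fun z => g z * F z) = fun z => g z * (ball (0:ℂ) n).indicator F z := by
      funext z
      by_cases hz : z ∈ ball (0:ℂ) n
      · rw [indicator_of_mem hz]
      · rw [hg.supp z hz, zero_mul, zero_mul]
    rw [h2]
    exact h1.bdd_mul hg.meas.aestronglyMeasurable (Eventually.of_forall hg.bd)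
  refine ⟨hint g B hg, ?_⟩
  -- the difference
  set T : (ℂ → ℂ) → ℂ := fun g => L g - ∫ z, g z * F z ∂ν with hT
  obtain ⟨C, hC0, hC⟩ := hL.norm n
  set D : ℝ := ∫ z in ball (0:ℂ) n, ‖F z‖ ∂ν with hD
  have hadd : ∀ (g g' : ℂ → ℂ) (B B' : ℝ), Bd g 0 n B → Bd g' 0 n B' →
      T (fun z => g z + g' z) = T g + T g' := by
    intro g g' B B' h h'
    simp only [hT]
    rw [hL.add g g' n B B' h h']
    simp only [add_mul]
    rw [integral_add (hint g B h) (hint g' B' h')]
    ring
  have hsmul : ∀ (c : ℂ) (g : ℂ → ℂ) (B : ℝ), Bd g 0 n B → T (fun z => c * g z) = c * T g := by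
    intro c g B h
    simp only [hT]
    rw [hL.smul c g n B h]
    simp only [mul_assoc]
    rw [integral_const_mul]
    ring
  have hb : ∀ (g : ℂ → ℂ) (B : ℝ), Bd g 0 n B → ‖T g‖ ≤ (C + D) * B := by
    intro g B h
    simp only [hT]
    refine (norm_sub_le _ _).trans ?_
    have h1 := hC g B h
    have h2 : ‖∫ z, g z * F z ∂ν‖ ≤ B * D := by
      have h3 : ∫ z, g z * F z ∂ν = ∫ z in ball (0:ℂ) n, g z * F z ∂ν := by
        rw [← integral_indicator measurableSet_ball]
        congr 1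
        funext z
        by_cases hz : z ∈ ball (0:ℂ) n
        · rw [indicator_of_mem hz]
        · rw [indicator_of_notMem hz, h.supp z hz, zero_mul]
      rw [h3, hD, ← integral_const_mul]
      refine norm_integral_le_of_norm_le (hI.norm.const_mul B) (Eventually.of_forall fun z => ?_)
      rw [norm_mul]
      exact mul_le_mul_of_nonneg_right (h.bd z) (norm_nonneg _)
    linarith
  have h0 : ∀ A, MeasurableSet A → A ⊆ ball 0 n → T (ind A) = 0 := by
    intro A hAm hAn
    simp only [hT]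
    rw [hA A hAm hAn, sub_eq_zero, ← integral_indicator hAm]
    congr 1
    funext z
    unfold ind
    by_cases hz : z ∈ A
    · rw [indicator_of_mem hz, indicator_of_mem hz, one_mul]
    · rw [indicator_of_notMem hz, indicator_of_notMem hz, zero_mul]
  -- the four parts
  have hpart : ∀ (φ : ℂ → ℝ), Measurable φ → (∀ z, |φ z| ≤ B) →
      (∀ z, z ∉ ball (0:ℂ) n → φ z = 0) → T (fun z => (φ z : ℂ)) = 0 := by
    intro φ hφ hφB hφs
    rcases hg.nonneg.eq_or_lt with hB0 | hB0
    · have : (fun z => (φ z : ℂ)) = fun z => 0 * ind (∅ : Set ℂ) z := by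
        funext z
        have h1 := hφB z
        rw [← hB0] at h1
        rw [abs_nonpos_iff.1 h1]
        simp
      rw [this, hsmul 0 _ 1 (ind_bd MeasurableSet.empty (empty_subset _)), zero_mul]
    · have hpos : ∀ ψ : ℂ → ℝ, Measurable ψ → (∀ z, |ψ z| ≤ B) →
          (∀ z, z ∉ ball (0:ℂ) n → ψ z = 0) → T (fun z => ((max (ψ z) 0 / B : ℝ) : ℂ)) = 0 := by
        intro ψ hψ hψB hψs
        refine real_case hadd hsmul hb h0 ((hψ.max measurable_const).div_const B)
          (fun z => div_nonneg (le_max_right _ _) hB0.le) (fun z => ?_) (fun z hz => ?_)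
        · rw [div_le_one hB0]
          exact max_le ((le_abs_self _).trans (hψB z)) hB0.le
        · rw [hψs z hz, max_self, zero_div]
      have hbdp : ∀ ψ : ℂ → ℝ, Measurable ψ → (∀ z, |ψ z| ≤ B) →
          (∀ z, z ∉ ball (0:ℂ) n → ψ z = 0) →
          Bd (fun z => ((max (ψ z) 0 / B : ℝ) : ℂ)) 0 n 1 := by
        intro ψ hψ hψB hψs
        refine ⟨Complex.measurable_ofReal.comp ((hψ.max measurable_const).div_const B),
          zero_le_one, fun z => ?_, fun z hz => ?_⟩
        · rw [Complex.norm_real, Real.norm_of_nonneg (div_nonneg (le_max_right _ _) hB0.le),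
            div_le_one hB0]
          exact max_le ((le_abs_self _).trans (hψB z)) hB0.le
        · rw [hψs z hz, max_self, zero_div, Complex.ofReal_zero]
      have hn1 : ∀ z, |-φ z| ≤ B := fun z => by rw [abs_neg]; exact hφB z
      have hn2 : ∀ z, z ∉ ball (0:ℂ) n → -φ z = 0 := fun z hz => by rw [hφs z hz, neg_zero]
      have p1 := hpos φ hφ hφB hφs
      have p2 := hpos (fun z => -φ z) hφ.neg hn1 hn2
      have q1 := hbdp φ hφ hφB hφs
      have q2 := hbdp (fun z => -φ z) hφ.neg hn1 hn2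
      have e : (fun z => (φ z : ℂ)) = fun z => (B : ℂ) * ((max (φ z) 0 / B : ℝ) : ℂ) +
          (-(B : ℂ)) * ((max (-φ z) 0 / B : ℝ) : ℂ) := by
        funext z
        have h1 : φ z = max (φ z) 0 - max (-φ z) 0 := by
          rcases le_total 0 (φ z) with h | h
          · rw [max_eq_left h, max_eq_right (by linarith), sub_zero]
          · rw [max_eq_right h, max_eq_left (by linarith)]
            ring
        have hBne : (B : ℂ) ≠ 0 := by exact_mod_cast hB0.ne'
        conv_lhs => rw [h1]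
        push_cast
        field_simp
        ring
      rw [e, hadd _ _ _ _ (bd_smul _ q1) (bd_smul _ q2), hsmul _ _ _ q1, hsmul _ _ _ q2, p1, p2]
      simp
  have hre := hpart (fun z => (g z).re) (Complex.measurable_re.comp hg.meas)
    (fun z => (Complex.abs_re_le_norm _).trans (hg.bd z)) (fun z hz => by rw [hg.supp z hz]; rfl)
  have him := hpart (fun z => (g z).im) (Complex.measurable_im.comp hg.meas)
    (fun z => (Complex.abs_im_le_norm _).trans (hg.bd z)) (fun z hz => by rw [hg.supp z hz]; rfl)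
  have b1 : Bd (fun z => (((g z).re : ℝ) : ℂ)) 0 n B :=
    ⟨Complex.measurable_ofReal.comp (Complex.measurable_re.comp hg.meas), hg.nonneg, fun z => by
      rw [Complex.norm_real]
      exact (Complex.abs_re_le_norm _).trans (hg.bd z), fun z hz => by rw [hg.supp z hz]; simp⟩
  have b2 : Bd (fun z => (((g z).im : ℝ) : ℂ)) 0 n B :=
    ⟨Complex.measurable_ofReal.comp (Complex.measurable_im.comp hg.meas), hg.nonneg, fun z => by
      rw [Complex.norm_real]
      exact (Complex.abs_im_le_norm _).trans (hg.bd z), fun z hz => by rw [hg.supp z hz]; simp⟩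
  have e : g = fun z => (((g z).re : ℝ) : ℂ) + Complex.I * (((g z).im : ℝ) : ℂ) := by
    funext z
    rw [mul_comm]
    exact (Complex.re_add_im _).symm
  have hTg : T g = 0 := by
    rw [e, hadd _ _ _ _ b1 (bd_smul _ b2), hsmul _ _ _ b2, hre, him, mul_zero, add_zero]
  exact sub_eq_zero.1 hTg

end

end Pool.Agent.N812.BB
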