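import Pool.Agent.N812.BB.Hl

/-!
# Summation of strong type bounds
-/

set_option autoImplicit false

namespace Pool.Agent.N812.BB

open MeasureTheory Set Metric Filter Topology
open Pool.Agent.R276.CP Pool.Agent.R276.CP.Fat
open Pool.Agent.N812.IS (nn nn_meas nn_smul nn_le_ps tl tl_meas tl_zero Xi Xi_meas ps ps_meas ps_nonneg ps_zero
  ps_of_le ps_of_ge ev_norm)
open Pool.Agent.Y271.RO (Bd)
open scoped InnerProductSpace ENNReal NNReal

variable {ν : Measure ℂ} [IsFiniteMeasure ν]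

lemma ps_le_pow {x s : ℝ} (hx : 0 ≤ x) (hs1 : 1 ≤ s) (hs2 : s ≤ 2) : ps x ≤ x ^ s := by
  rcases le_total x 1 with h | h
  · rw [ps_of_le hx h]
    rcases hx.eq_or_lt with h0 | h0
    · rw [← h0, Real.zero_rpow (by linarith)]
      norm_num
    · rw [← Real.rpow_natCast]
      exact Real.rpow_le_rpow_of_exponent_ge h0 h (by exact_mod_cast hs2)
  · rw [ps_of_ge h]
    calc x = x ^ (1 : ℝ) := (Real.rpow_one x).symm
      _ ≤ x ^ s := Real.rpow_le_rpow_of_exponent_le h hs1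

lemma nn_tail {a : ℂ → ℕ → ℂ} (ha : ∀ j, Measurable fun z => a z j) {l : ℝ} (hl : 0 < l)
    (hl1 : l ≤ 1) {τ : ℕ → ℝ} (hτ0 : ∀ j, 0 ≤ τ j) (hτ : Summable τ)
    (h : ∀ j, ∫⁻ z, ENNReal.ofReal (ps ‖a z j‖) ∂ν ≤ ENNReal.ofReal (τ j)) (n : ℕ) :
    ∫⁻ z, nn (tl n (a z)) ∂ν ≤
      ENNReal.ofReal (l * (ν univ).toReal + 2 * l⁻¹ * ∑' j, τ (j + n)) := by
  have hm : ∀ j, Measurable fun z => ENNReal.ofReal (ps ‖tl n (a z) j‖) := fun j =>
    (ps_meas.comp (tl_meas ha n j).norm).ennreal_ofReal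
  calc ∫⁻ z, nn (tl n (a z)) ∂ν
      ≤ ∫⁻ z, (ENNReal.ofReal l + ENNReal.ofReal (2 * l⁻¹) *
          ∑' j, ENNReal.ofReal (ps ‖tl n (a z) j‖)) ∂ν := lintegral_mono fun z => nn_le_ps _ hl hl1
    _ = ENNReal.ofReal l * ENNReal.ofReal (ν univ).toReal + ENNReal.ofReal (2 * l⁻¹) *
          ∑' j, ∫⁻ z, ENNReal.ofReal (ps ‖tl n (a z) j‖) ∂ν := by
        rw [lintegral_add_left measurable_const, lintegral_const,
          ENNReal.ofReal_toReal (measure_ne_top ν univ), lintegral_const_mul _ (Measurable.tsum hm),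
          lintegral_tsum fun j => (hm j).aemeasurable]
    _ ≤ ENNReal.ofReal l * ENNReal.ofReal (ν univ).toReal + ENNReal.ofReal (2 * l⁻¹) *
          ∑' j, (if j < n then 0 else ENNReal.ofReal (τ j)) := by
        refine add_le_add le_rfl (mul_le_mul' le_rfl (ENNReal.tsum_le_tsum fun j => ?_))
        by_cases hj : j < n
        · simp [tl, hj, ps_zero]
        · simp only [tl, hj, if_false]
          exact h j
    _ = ENNReal.ofReal l * ENNReal.ofReal (ν univ).toReal + ENNReal.ofReal (2 * l⁻¹) *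
          ENNReal.ofReal (∑' j, τ (j + n)) := by
        congr 2
        rw [ENNReal.ofReal_tsum_of_nonneg (fun j => hτ0 _) ((summable_nat_add_iff n).2 hτ),
          ← Summable.sum_add_tsum_nat_add' (k := n)
            (f := fun j => if j < n then 0 else ENNReal.ofReal (τ j)) ENNReal.summable]
        rw [Finset.sum_eq_zero fun j hj => if_pos (Finset.mem_range.1 hj), zero_add]
        refine tsum_congr fun j => ?_
        rw [if_neg (by omega)]
    _ = _ := by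
        have h0 : 0 ≤ ∑' j, τ (j + n) := tsum_nonneg fun j => hτ0 _
        have hv : 0 ≤ (ν univ).toReal := ENNReal.toReal_nonneg
        have e2 : ENNReal.ofReal (2 * l⁻¹ * ∑' j, τ (j + n)) =
            ENNReal.ofReal (2 * l⁻¹) * ENNReal.ofReal (∑' j, τ (j + n)) :=
          ENNReal.ofReal_mul (by positivity)
        rw [ENNReal.ofReal_add (by positivity) (by positivity), ENNReal.ofReal_mul hl.le, e2]

/-- homogeneous form -/
theorem nn_hom {a : ℂ → ℕ → ℂ} (ha : ∀ j, Measurable fun z => a z j) {s : ℝ} (hs1 : 1 ≤ s)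
    (hs2 : s ≤ 2) {t : ℕ → ℝ} (ht0 : ∀ j, 0 ≤ t j) (ht : Summable fun j => t j ^ s) {w l : ℝ}
    (hw : 0 ≤ w) (hl : 0 < l) (hl1 : l ≤ 1)
    (h : ∀ j, ∫⁻ z, ENNReal.ofReal (‖a z j‖ ^ s) ∂ν ≤ ENNReal.ofReal ((w * t j) ^ s)) (n : ℕ) :
    ∫⁻ z, nn (tl n (a z)) ∂ν ≤
      ENNReal.ofReal (w * (l * (ν univ).toReal + 2 * l⁻¹ * ∑' j, t (j + n) ^ s)) := by
  set Q : ℝ := l * (ν univ).toReal + 2 * l⁻¹ * ∑' j, t (j + n) ^ s with hQ
  have key : ∀ w' : ℝ, 0 < w' → w ≤ w' → ∫⁻ z, nn (tl n (a z)) ∂ν ≤ ENNReal.ofReal (w' * Q) := by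
    intro w' hw' hww
    set b : ℂ → ℕ → ℂ := fun z j => ((w' : ℂ)⁻¹) * a z j with hb
    have hbm : ∀ j, Measurable fun z => b z j := fun j => (ha j).const_mul _
    have hbW : ∀ j, ∫⁻ z, ENNReal.ofReal (ps ‖b z j‖) ∂ν ≤ ENNReal.ofReal (t j ^ s) := by
      intro j
      have e1 : ∀ z, ‖b z j‖ ^ s = (w'⁻¹) ^ s * ‖a z j‖ ^ s := by
        intro z
        simp only [hb]
        rw [norm_mul, norm_inv, Complex.norm_real, Real.norm_of_nonneg hw'.le,
          Real.mul_rpow (by positivity) (norm_nonneg _)]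
      calc ∫⁻ z, ENNReal.ofReal (ps ‖b z j‖) ∂ν ≤ ∫⁻ z, ENNReal.ofReal (‖b z j‖ ^ s) ∂ν :=
            lintegral_mono fun z => ENNReal.ofReal_le_ofReal (ps_le_pow (norm_nonneg _) hs1 hs2)
        _ = ENNReal.ofReal ((w'⁻¹) ^ s) * ∫⁻ z, ENNReal.ofReal (‖a z j‖ ^ s) ∂ν := by
            rw [← lintegral_const_mul' _ _ ENNReal.ofReal_ne_top]
            refine lintegral_congr fun z => ?_
            rw [e1, ENNReal.ofReal_mul (by positivity)]
        _ ≤ ENNReal.ofReal ((w'⁻¹) ^ s) * ENNReal.ofReal ((w * t j) ^ s) :=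
            mul_le_mul' le_rfl (h j)
        _ = ENNReal.ofReal ((w'⁻¹ * (w * t j)) ^ s) := by
            rw [← ENNReal.ofReal_mul (by positivity), ← Real.mul_rpow (by positivity)
              (mul_nonneg hw (ht0 j))]
        _ ≤ ENNReal.ofReal (t j ^ s) := by
            refine ENNReal.ofReal_le_ofReal (Real.rpow_le_rpow
              (mul_nonneg (by positivity) (mul_nonneg hw (ht0 j))) ?_ (by linarith))
            rw [← mul_assoc]
            have : w'⁻¹ * w ≤ 1 := by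
              rw [inv_mul_le_iff₀ hw', mul_one]
              exact hww
            exact mul_le_of_le_one_left (ht0 j) this
    have h1 := nn_tail hbm hl hl1 (τ := fun j => t j ^ s)
      (fun j => Real.rpow_nonneg (ht0 j) s) ht hbW n
    have h2 : ∀ z, nn (tl n (a z)) = ENNReal.ofReal w' * nn (tl n (b z)) := by
      intro z
      have e : tl n (a z) = fun j => (w' : ℂ) * tl n (b z) j := by
        funext j
        simp only [tl, hb]
        split_ifs
        · rw [mul_zero]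
        · rw [← mul_assoc, mul_inv_cancel₀ (by exact_mod_cast hw'.ne'), one_mul]
      rw [e, nn_smul, Complex.norm_real, Real.norm_of_nonneg hw'.le]
    simp_rw [h2]
    rw [lintegral_const_mul' _ _ ENNReal.ofReal_ne_top, ENNReal.ofReal_mul hw'.le]
    exact mul_le_mul' le_rfl h1
  have hlim : Tendsto (fun n : ℕ => ENNReal.ofReal ((w + 1 / ((n : ℝ) + 1)) * Q)) atTop
      (𝓝 (ENNReal.ofReal (w * Q))) := by
    refine ENNReal.tendsto_ofReal ?_
    have h1 : Tendsto (fun n : ℕ => w + 1 / ((n : ℝ) + 1)) atTop (𝓝 (w + 0)) :=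
      tendsto_one_div_add_atTop_nhds_zero_nat.const_add w
    rw [add_zero] at h1
    exact h1.mul_const Q
  exact ge_of_tendsto' hlim fun k => key _ (by positivity) (by
    have : (0 : ℝ) ≤ 1 / ((k : ℝ) + 1) := by positivity
    linarith)

/-- uniform bounds -/
theorem tails {ι : Type} {a : ι → ℂ → ℕ → ℂ} (ha : ∀ i j, Measurable fun z => a i z j) {w : ι → ℝ}
    (hw : ∀ i, 0 ≤ w i) {s : ℝ} (hs1 : 1 ≤ s) (hs2 : s ≤ 2) {t : ℕ → ℝ} (ht0 : ∀ j, 0 ≤ t j)
    (ht : Summable fun j => t j ^ s)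
    (h : ∀ i j, ∫⁻ z, ENNReal.ofReal (‖a i z j‖ ^ s) ∂ν ≤ ENNReal.ofReal ((w i * t j) ^ s)) :
    (∃ C : ℝ, 0 ≤ C ∧ ∀ i, ∫⁻ z, nn (a i z) ∂ν ≤ ENNReal.ofReal (C * w i)) ∧
    (∀ ε : ℝ, 0 < ε → ∃ n : ℕ, ∀ i, ∫⁻ z, nn (tl n (a i z)) ∂ν ≤ ENNReal.ofReal (ε * w i)) := by
  have hv : 0 ≤ (ν univ).toReal := ENNReal.toReal_nonneg
  have hnn : ∀ j, 0 ≤ t j ^ s := fun j => Real.rpow_nonneg (ht0 j) s
  refine ⟨?_, fun ε hε => ?_⟩
  · have h0 : 0 ≤ ∑' j, t (j + 0) ^ s := tsum_nonneg fun j => hnn _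
    refine ⟨1 * (ν univ).toReal + 2 * 1⁻¹ * ∑' j, t (j + 0) ^ s, by positivity, fun i => ?_⟩
    have h1 := nn_hom (ha i) hs1 hs2 ht0 ht (hw i) one_pos le_rfl (h i) 0
    simp only [tl_zero] at h1
    rw [mul_comm]
    exact h1
  · set l : ℝ := min 1 (ε / (2 * ((ν univ).toReal + 1))) with hl
    have hl0 : 0 < l := lt_min one_pos (by positivity)
    have hl1 : l ≤ 1 := min_le_left _ _
    have hlv : l * (ν univ).toReal ≤ ε / 2 := by
      calc l * (ν univ).toReal ≤ ε / (2 * ((ν univ).toReal + 1)) * (ν univ).toReal :=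
            mul_le_mul_of_nonneg_right (min_le_right _ _) hv
        _ = ε / 2 * ((ν univ).toReal / ((ν univ).toReal + 1)) := by field_simp
        _ ≤ ε / 2 * 1 := by
            gcongr
            rw [div_le_one (by positivity)]
            linarith
        _ = ε / 2 := mul_one _
    have hlim : Tendsto (fun n : ℕ => 2 * l⁻¹ * ∑' j, t (j + n) ^ s) atTop (𝓝 (2 * l⁻¹ * 0)) :=
      (tendsto_sum_nat_add fun j => t j ^ s).const_mul _
    rw [mul_zero] at hlim
    obtain ⟨n, hn⟩ := (hlim.eventually_lt_const (show (0 : ℝ) < ε / 2 by positivity)).exists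
    refine ⟨n, fun i => ?_⟩
    refine (nn_hom (ha i) hs1 hs2 ht0 ht (hw i) hl0 hl1 (h i) n).trans (ENNReal.ofReal_le_ofReal ?_)
    rw [mul_comm ε]
    exact mul_le_mul_of_nonneg_left (by linarith) (hw i)

/-! ### the operators `∫ g(z) (z - N)⁻¹ dν` -/

/-- the operators `R g = ∫ g(z) (z - N)⁻¹ dν` exist with an `L^q` bound -/
structure Sr {X : Type} [NormedAddCommGroup X] [NormedSpace ℂ X] (ν : Measure ℂ) (q C : ℝ)
    (N : X →L[ℂ] X) (R : (ℂ → ℂ) → (X →L[ℂ] X)) : Prop where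
  lq : Lq ν q C R
  comm : ∀ (a : ℂ) (r B : ℝ) (g : ℂ → ℂ), Bd g a r B → N * R g = R g * N
  step : ∀ (a c : ℂ) (r B : ℝ) (g : ℂ → ℂ) (x : X), Bd g c r B →
    N (R g x) - a • R g x = R (fun z => (z - a) * g z) x - (∫ z, g z ∂ν) • x

section

variable {X : Type} [NormedAddCommGroup X] [NormedSpace ℂ X] {N : X →L[ℂ] X} {q C : ℝ}
  {R : (ℂ → ℂ) → (X →L[ℂ] X)}

/-- the matrix elements -/
noncomputable def me (y : X →L[ℂ] ℂ) (x : X) : (X →L[ℂ] X) →L[ℂ] ℂ :=
  y.comp (ContinuousLinearMap.apply ℂ X x)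

lemma me_apply (y : X →L[ℂ] ℂ) (x : X) (A : X →L[ℂ] X) : me y x A = y (A x) := rfl

lemma me_norm (y : X →L[ℂ] ℂ) (x : X) : ‖me y x‖ ≤ ‖y‖ * ‖x‖ := by
  refine ContinuousLinearMap.opNorm_le_bound _ (by positivity) fun A => ?_
  rw [me_apply]
  calc ‖y (A x)‖ ≤ ‖y‖ * (‖A‖ * ‖x‖) :=
        (y.le_opNorm _).trans (mul_le_mul_of_nonneg_left (A.le_opNorm _) (norm_nonneg _))
    _ = _ := by ring

/-- the weak resolvent -/
noncomputable def wf (hR : Sr ν q C N R) (hq : 1 < q) (y : X →L[ℂ] ℂ) (x : X) : ℂ → ℂ :=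
  den hR.lq hq (me y x)

lemma wf_meas (hR : Sr ν q C N R) (hq : 1 < q) (y : X →L[ℂ] ℂ) (x : X) :
    Measurable (wf hR hq y x) := den_meas hR.lq hq _

lemma wf_lq (hR : Sr ν q C N R) (hq : 1 < q) (y : X →L[ℂ] ℂ) (x : X) :
    ∫⁻ z, ENNReal.ofReal (‖wf hR hq y x z‖ ^ (q / (q - 1))) ∂ν ≤
      ENNReal.ofReal ((‖y‖ * (C * ‖x‖)) ^ (q / (q - 1))) := by
  refine (den_lq hR.lq hq (me y x)).trans (ENNReal.ofReal_le_ofReal ?_)
  have hq0 : 0 < q - 1 := by linarith
  refine Real.rpow_le_rpow (mul_nonneg hR.lq.nonneg (norm_nonneg _)) ?_ (by positivity)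
  calc C * ‖me y x‖ ≤ C * (‖y‖ * ‖x‖) := mul_le_mul_of_nonneg_left (me_norm y x) hR.lq.nonneg
    _ = _ := by ring

theorem Sr.cal (hR : Sr ν q C N R) (hq : 1 < q) :
    Cal ν N R (fun y : X →L[ℂ] ℂ => y) (wf hR hq) := by
  refine ⟨fun x B hB hx => ?_, hR.step, fun r hr => ?_, wf_meas hR hq, fun y x a r B g hg => ?_⟩
  · exact NormedSpace.norm_le_dual_bound ℂ x hB fun y => hx y
  · refine ⟨C * (ν univ).toReal ^ (1 / q), mul_nonneg hR.lq.nonneg (by positivity),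
      fun a B g hg => ?_⟩
    refine (hR.lq.bd g a r B hg).trans ?_
    rw [mul_assoc]
    refine mul_le_mul_of_nonneg_left ?_ hR.lq.nonneg
    rw [mul_comm]
    exact eLp_bd hg.nonneg hq hg.bd MeasurableSet.univ fun z hz => absurd (mem_univ z) hz
  · exact den_rep hR.lq hq (me y x) a r B g hg

/-- the perturbations -/
theorem Sr.pert (hR : Sr ν q C N R) (hq : 2 ≤ q) {u : ℕ → X} {v : ℕ → (X →L[ℂ] ℂ)}
    (hu : Summable fun j => ‖u j‖ ^ (q / (q - 1))) (hv : Summable fun j => ‖v j‖ ^ (q / (q - 1)))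
    {K : X →L[ℂ] X} (hK : ∀ x, HasSum (fun j => v j x • u j) (K x)) :
    Pert ν (fun y : X →L[ℂ] ℂ => y) (wf hR (by linarith)) u v K := by
  have hq0 : 0 < q - 1 := by linarith
  have hq1 : 1 < q := by linarith
  set s : ℝ := q / (q - 1) with hs
  have hs1 : 1 ≤ s := by
    rw [hs, le_div_iff₀ hq0]
    linarith
  have hs2 : s ≤ 2 := by
    rw [hs, div_le_iff₀ hq0]
    linarith
  have hCu : Summable fun j => (C * ‖u j‖) ^ s := by
    refine (hu.mul_left (C ^ s)).congr fun i => ?_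
    rw [Real.mul_rpow hR.lq.nonneg (norm_nonneg _)]
  have hb := tails (ν := ν) (a := fun (y : X →L[ℂ] ℂ) z j => wf hR hq1 y (u j) z)
    (fun y j => wf_meas hR hq1 _ _) (w := fun y => ‖y‖) (fun y => norm_nonneg _) hs1 hs2
    (t := fun j => C * ‖u j‖) (fun j => mul_nonneg hR.lq.nonneg (norm_nonneg _)) hCu
    (fun y j => wf_lq hR hq1 y (u j))
  refine ⟨fun x => (hK x).tendsto_sum_nat, ?_, fun r => ?_, fun r ε hε => ?_⟩
  · -- the matrix
    have hm : ∀ i j, Measurable fun z => ENNReal.ofReal (ps ‖wf hR hq1 (v i) (u j) z‖) :=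
      fun i j => (ps_meas.comp (wf_meas hR hq1 _ _).norm).ennreal_ofReal
    have hX : ∫⁻ z, Xi (fun i j z => wf hR hq1 (v i) (u j) z) z ∂ν ≠ ⊤ := by
      unfold Xi
      rw [lintegral_tsum fun j => (Measurable.tsum fun i => hm i j).aemeasurable]
      refine ne_of_lt ?_
      calc ∑' j, ∫⁻ z, ∑' i, ENNReal.ofReal (ps ‖wf hR hq1 (v i) (u j) z‖) ∂ν
          = ∑' j, ∑' i, ∫⁻ z, ENNReal.ofReal (ps ‖wf hR hq1 (v i) (u j) z‖) ∂ν :=
            tsum_congr fun j => lintegral_tsum fun i => (hm i j).aemeasurable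
        _ ≤ ∑' j, ∑' i, ENNReal.ofReal (‖v i‖ ^ s) * ENNReal.ofReal ((C * ‖u j‖) ^ s) := by
            refine ENNReal.tsum_le_tsum fun j => ENNReal.tsum_le_tsum fun i => ?_
            refine (lintegral_mono fun z => ENNReal.ofReal_le_ofReal
              (ps_le_pow (norm_nonneg _) hs1 hs2)).trans ((wf_lq hR hq1 (v i) (u j)).trans ?_)
            rw [Real.mul_rpow (norm_nonneg _) (mul_nonneg hR.lq.nonneg (norm_nonneg _)),
              ENNReal.ofReal_mul (by positivity)]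
        _ = (∑' i, ENNReal.ofReal (‖v i‖ ^ s)) * ∑' j, ENNReal.ofReal ((C * ‖u j‖) ^ s) := by
            simp_rw [ENNReal.tsum_mul_right, ENNReal.tsum_mul_left]
        _ < ⊤ := by
            refine ENNReal.mul_lt_top ?_ ?_
            · rw [← ENNReal.ofReal_tsum_of_nonneg (fun i => Real.rpow_nonneg (norm_nonneg _) _) hv]
              exact ENNReal.ofReal_lt_top
            · rw [← ENNReal.ofReal_tsum_of_nonneg (fun i => Real.rpow_nonneg
                (mul_nonneg hR.lq.nonneg (norm_nonneg _)) _) hCu]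
              exact ENNReal.ofReal_lt_top
    have hXm : Measurable fun z => Xi (fun i j z => wf hR hq1 (v i) (u j) z) z :=
      Xi_meas fun i j => wf_meas hR hq1 _ _
    exact (ae_lt_top hXm hX).mono fun z hz => hz.ne
  · obtain ⟨D, hD0, hD⟩ := hb.1
    exact ⟨D, hD0, fun y => (setLIntegral_le_lintegral _ _).trans (hD y)⟩
  · obtain ⟨n, hn⟩ := hb.2 ε hε
    exact ⟨n, fun y => (setLIntegral_le_lintegral _ _).trans (hn y)⟩

end

end Pool.Agent.N812.BB
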